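import Pool.Agent.H850.LA.Tan

/-!
# Small elements act trivially modulo an ideal containing their logarithm
-/

set_option autoImplicit false
set_option linter.unusedSectionVars false

open Matrix Filter Topology

namespace Pool.Agent.H850.LA

variable {p : ℕ} [Fact p.Prime]

theorem norm_choose (n j : ℕ) (hj : j ≠ 0) :
    ‖((p : ℚ_[p]) ^ n)⁻¹ * ((p ^ n).choose j : ℚ_[p])‖ ≤ (p : ℝ) ^ (j - 1) := by
  obtain ⟨i, rfl⟩ := Nat.exists_eq_succ_of_ne_zero hj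
  have hp2 : 2 ≤ p := (Fact.out : p.Prime).two_le
  have hp0 : (p : ℚ_[p]) ≠ 0 := ell_ne
  obtain ⟨m, hm⟩ : ∃ m, p ^ n = m + 1 :=
    Nat.exists_eq_succ_of_ne_zero (pow_ne_zero _ (Fact.out : p.Prime).ne_zero)
  have h1 : (p ^ n) * m.choose i = (p ^ n).choose (i + 1) * (i + 1) := by
    rw [hm]
    exact Nat.add_one_mul_choose_eq m i
  have h2 : ((p : ℚ_[p]) ^ n) * (m.choose i : ℚ_[p]) =
      ((p ^ n).choose (i + 1) : ℚ_[p]) * ((i + 1 : ℕ) : ℚ_[p]) := by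
    exact_mod_cast h1
  have hi0 : ((i + 1 : ℕ) : ℚ_[p]) ≠ 0 := by exact_mod_cast Nat.succ_ne_zero i
  have h3 : ((p : ℚ_[p]) ^ n)⁻¹ * ((p ^ n).choose (i + 1) : ℚ_[p]) =
      (m.choose i : ℚ_[p]) * (((i + 1 : ℕ) : ℚ_[p]))⁻¹ := by
    rw [eq_mul_inv_iff_mul_eq₀ hi0, mul_assoc, ← h2, ← mul_assoc,
      inv_mul_cancel₀ (pow_ne_zero _ hp0), one_mul]
  rw [Nat.succ_eq_add_one, h3, norm_mul, norm_inv]
  have h4 : ‖(m.choose i : ℚ_[p])‖ ≤ 1 := by
    exact_mod_cast Padic.norm_int_le_one (p := p) (m.choose i : ℤ)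
  have h5 : (((i + 1 : ℕ) : ℝ))⁻¹ ≤ ‖((i + 1 : ℕ) : ℚ_[p])‖ := by
    have hdvd : p ^ (padicValNat p (i + 1)) ≤ i + 1 :=
      Nat.le_of_dvd (Nat.succ_pos i) pow_padicValNat_dvd
    have h6 : ‖((i + 1 : ℕ) : ℚ_[p])‖ = ((p : ℝ) ^ (padicValNat p (i + 1)))⁻¹ := by
      have h7 := Padic.norm_eq_zpow_neg_valuation hi0
      rw [h7, Padic.valuation_natCast, _root_.zpow_neg, zpow_natCast]
    rw [h6]
    refine inv_anti₀ (by positivity) ?_
    exact_mod_cast hdvd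
  have h6 : ‖((i + 1 : ℕ) : ℚ_[p])‖⁻¹ ≤ ((i + 1 : ℕ) : ℝ) := by
    have hpos : 0 < ‖((i + 1 : ℕ) : ℚ_[p])‖ := norm_pos_iff.2 hi0
    rw [inv_le_comm₀ hpos (by positivity)]
    exact h5
  have h7 : ((i + 1 : ℕ) : ℝ) ≤ (p : ℝ) ^ i := by
    have h8 : i + 1 ≤ 2 ^ i := Nat.lt_two_pow_self
    have h9 : 2 ^ i ≤ p ^ i := Nat.pow_le_pow_left hp2 i
    exact_mod_cast h8.trans h9
  calc ‖(m.choose i : ℚ_[p])‖ * ‖((i + 1 : ℕ) : ℚ_[p])‖⁻¹ ≤ 1 * ((i + 1 : ℕ) : ℝ) := by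
        exact mul_le_mul h4 h6 (by positivity) zero_le_one
    _ ≤ (p : ℝ) ^ (i + 1 - 1) := by
        rw [one_mul, Nat.add_sub_cancel]
        exact h7

variable {V : Type*} [AddCommGroup V] [Module ℚ_[p] V]

/-- the key estimate -/
theorem key_zero (D : Module.End ℚ_[p] V) (I : Set V)
    (hI : ∀ X ∈ I, ∃ X' ∈ I, D X = ((p : ℚ_[p]) ^ 2) • X') (lam : V →ₗ[ℚ_[p]] ℚ_[p]) (K : ℝ)
    (hK0 : 0 < K) (hK : ∀ X ∈ I, ‖lam X‖ ≤ K)
    (hlim : ∀ X ∈ I, Tendsto (fun n : ℕ => ((p : ℚ_[p]) ^ n)⁻¹ *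
      lam (((1 + D) ^ (p ^ n)) X - X)) atTop (𝓝 0)) :
    ∀ X ∈ I, lam (D X) = 0 := by
  have hp1 : (1 : ℝ) < p := by exact_mod_cast (Fact.out : p.Prime).one_lt
  have hp0 : (0 : ℝ) < p := by linarith
  have hiter : ∀ j : ℕ, ∀ X ∈ I, ∃ X' ∈ I, (D ^ j) X = ((p : ℚ_[p]) ^ (2 * j)) • X' := by
    intro j
    induction j with
    | zero => exact fun X hX => ⟨X, hX, by simp⟩
    | succ j ih =>
      intro X hX
      obtain ⟨X', hX', h⟩ := ih X hX
      obtain ⟨X'', hX'', h2⟩ := hI X' hX'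
      refine ⟨X'', hX'', ?_⟩
      rw [pow_succ', Module.End.mul_apply, h, map_smul, h2, smul_smul, ← pow_add]
      congr 2
  have claim : ∀ r : ℕ, ∀ X ∈ I, ‖lam (D X)‖ ≤ K * ((p : ℝ)⁻¹) ^ r := by
    intro r
    induction r with
    | zero =>
      intro X hX
      obtain ⟨X', hX', h⟩ := hI X hX
      rw [h, map_smul, smul_eq_mul, norm_mul, norm_pow, Padic.norm_p, pow_zero, mul_one]
      have h1 : ((p : ℝ)⁻¹) ^ 2 ≤ 1 := pow_le_one₀ (by positivity) (inv_le_one_of_one_le₀ hp1.le)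
      calc ((p : ℝ)⁻¹) ^ 2 * ‖lam X'‖ ≤ 1 * K := mul_le_mul h1 (hK X' hX') (norm_nonneg _) zero_le_one
        _ = K := one_mul K
    | succ r ih =>
      intro X hX
      set B : ℝ := K * ((p : ℝ)⁻¹) ^ (r + 1) with hB
      have hBpos : 0 < B := by positivity
      obtain ⟨n, hn⟩ := ((Metric.tendsto_nhds.1 (hlim X hX)) B hBpos).exists
      rw [dist_zero_right] at hn
      -- expand
      have hexp : ((1 + D) ^ (p ^ n)) X - X =
          ∑ j ∈ Finset.range (p ^ n), ((p ^ n).choose (j + 1) : ℚ_[p]) • (D ^ (j + 1)) X := by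
        have h1 : (1 + D) ^ (p ^ n) =
            ∑ j ∈ Finset.range (p ^ n + 1), ((p ^ n).choose j : ℚ_[p]) • D ^ j := by
          rw [add_comm 1 D, (Commute.one_right D).add_pow]
          refine Finset.sum_congr rfl fun j _ => ?_
          rw [one_pow, mul_one]
          ext v
          rw [Module.End.mul_apply, LinearMap.smul_apply]
          have : (((p ^ n).choose j : Module.End ℚ_[p] V)) v = ((p ^ n).choose j : ℚ_[p]) • v := by
            rw [Module.End.natCast_apply, Nat.cast_smul_eq_nsmul]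
          rw [this, map_smul]
        rw [h1, Finset.sum_range_succ', LinearMap.add_apply, LinearMap.sum_apply]
        simp only [Nat.choose_zero_right, Nat.cast_one, one_smul, pow_zero, Module.End.one_apply,
          LinearMap.smul_apply, add_sub_cancel_right]
      have hpn : p ^ n ≠ 0 := pow_ne_zero _ (Fact.out : p.Prime).ne_zero
      obtain ⟨m, hm⟩ : ∃ m, p ^ n = m + 1 := Nat.exists_eq_succ_of_ne_zero hpn
      have hsum : ((p : ℚ_[p]) ^ n)⁻¹ * lam (((1 + D) ^ (p ^ n)) X - X) =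
          ∑ j ∈ Finset.range m, ((((p : ℚ_[p]) ^ n)⁻¹ * ((p ^ n).choose (j + 2) : ℚ_[p])) *
            lam ((D ^ (j + 2)) X)) + lam (D X) := by
        rw [hexp, map_sum, Finset.mul_sum, show Finset.range (p ^ n) = Finset.range (m + 1) by rw [hm],
          Finset.sum_range_succ']
        congr 1
        · refine Finset.sum_congr rfl fun j _ => ?_
          rw [map_smul, smul_eq_mul, mul_assoc]
        · rw [map_smul, smul_eq_mul, zero_add, Nat.choose_one_right, pow_one, Nat.cast_pow,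
            ← mul_assoc, inv_mul_cancel₀ (pow_ne_zero _ ell_ne), one_mul]
      have hterm : ∀ j ∈ Finset.range m, ‖(((p : ℚ_[p]) ^ n)⁻¹ * ((p ^ n).choose (j + 2) : ℚ_[p])) *
            lam ((D ^ (j + 2)) X)‖ ≤ B := by
        intro j _
        obtain ⟨X', hX', h⟩ := hiter (j + 1) X hX
        have h1 : (D ^ (j + 2)) X = ((p : ℚ_[p]) ^ (2 * (j + 1))) • D X' := by
          rw [pow_succ', Module.End.mul_apply, h, map_smul]
        rw [h1, map_smul, smul_eq_mul, norm_mul, norm_mul ((p : ℚ_[p]) ^ (2 * (j + 1))), norm_pow,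
          Padic.norm_p]
        have h2 := norm_choose (p := p) n (j + 2) (by omega)
        have h3 := ih X' hX'
        have h4 : (p : ℝ) ^ (j + 2 - 1) * (((p : ℝ)⁻¹) ^ (2 * (j + 1)) * (K * ((p : ℝ)⁻¹) ^ r)) ≤ B := by
          rw [show j + 2 - 1 = j + 1 by omega, hB]
          have h5 : (p : ℝ) ^ (j + 1) * (((p : ℝ)⁻¹) ^ (2 * (j + 1)) * (K * ((p : ℝ)⁻¹) ^ r)) =
              ((p : ℝ)⁻¹) ^ j * (K * ((p : ℝ)⁻¹) ^ (r + 1)) := by
            have e1 : (p : ℝ) ^ (j + 1) * ((p : ℝ)⁻¹) ^ (j + 1) = 1 := by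
              rw [← mul_pow, mul_inv_cancel₀ hp0.ne', one_pow]
            have e2 : ((p : ℝ)⁻¹) ^ (2 * (j + 1)) = ((p : ℝ)⁻¹) ^ (j + 1) * ((p : ℝ)⁻¹) ^ (j + 1) := by
              rw [← pow_add]
              congr 1
              omega
            calc (p : ℝ) ^ (j + 1) * (((p : ℝ)⁻¹) ^ (2 * (j + 1)) * (K * ((p : ℝ)⁻¹) ^ r)) =
                ((p : ℝ) ^ (j + 1) * ((p : ℝ)⁻¹) ^ (j + 1)) * ((p : ℝ)⁻¹) ^ (j + 1) *
                  (K * ((p : ℝ)⁻¹) ^ r) := by rw [e2]; ring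
              _ = ((p : ℝ)⁻¹) ^ j * (K * ((p : ℝ)⁻¹) ^ (r + 1)) := by
                rw [e1, pow_succ ((p : ℝ)⁻¹) j, pow_succ ((p : ℝ)⁻¹) r]
                ring
          rw [h5]
          refine mul_le_of_le_one_left hBpos.le ?_
          exact pow_le_one₀ (by positivity) (inv_le_one_of_one_le₀ hp1.le)
        refine le_trans ?_ h4
        refine mul_le_mul h2 ?_ (by positivity) (by positivity)
        exact mul_le_mul_of_nonneg_left h3 (by positivity)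
      have h5 : lam (D X) = ((p : ℚ_[p]) ^ n)⁻¹ * lam (((1 + D) ^ (p ^ n)) X - X) -
          ∑ j ∈ Finset.range m, ((((p : ℚ_[p]) ^ n)⁻¹ * ((p ^ n).choose (j + 2) : ℚ_[p])) *
            lam ((D ^ (j + 2)) X)) := by
        rw [hsum, add_sub_cancel_left]
      rw [h5, sub_eq_add_neg]
      refine le_trans (Padic.nonarchimedean _ _) (max_le hn.le ?_)
      rw [norm_neg]
      exact IsUltrametricDist.norm_sum_le_of_forall_le_of_nonneg hBpos.le hterm
  intro X hX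
  have h1 : Tendsto (fun r : ℕ => K * ((p : ℝ)⁻¹) ^ r) atTop (𝓝 (K * 0)) :=
    (tendsto_pow_atTop_nhds_zero_of_lt_one (by positivity) (inv_lt_one_of_one_lt₀ hp1)).const_mul K
  rw [mul_zero] at h1
  have h2 : ‖lam (D X)‖ ≤ 0 := ge_of_tendsto' h1 fun r => claim r X hX
  exact norm_le_zero_iff.1 h2

end Pool.Agent.H850.LA
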