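import Pool.Agent.H850.MT.Zar
import Pool.Agent.H850.MT.Fix
import Pool.Agent.H850.OL.Explicit

/-!
# Connectedness of the monodromy groups does not depend on the prime

For a compatible system of semisimple representations of the Galois group of a number field:
if the monodromy group at one prime is connected, then the monodromy groups at all primes are
connected (Serre). We use the ranks of `ad` of the tensor powers of Frobenius elements.
-/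

set_option autoImplicit false
set_option linter.unusedSectionVars false

namespace Pool.Agent.H850.LA

open NumberField Filter Topology IsDedekindDomain MeasureTheory Polynomial
open Pool.Agent.W401.Cheb Pool.Agent.W352.ChAbs
open Pool.Agent.H850.TF Pool.Agent.H850.RG Pool.Agent.H850.MT2

section matrix

variable {K : Type} [Field K] [CharZero K] {N : ℕ}

/-- a semisimple matrix with the same rank of `ad` as a power of it is a polynomial in the power -/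
theorem mem_adjoin_of_rk {M : Matrix (Fin N) (Fin N) K}
    (hM : CR ({M} : Set (Matrix (Fin N) (Fin N) K))) {k : ℕ} (h : rk M ≤ rk (M ^ k)) :
    M ∈ Algebra.adjoin K {M ^ k} := by
  apply double_centralizer (CR_pow hM k)
  intro X hX
  have h1 : Commute (M ^ k) X := hX _ rfl
  have h2 := LinearMap.finrank_range_add_finrank_ker (adE K M)
  have h3 := LinearMap.finrank_range_add_finrank_ker (adE K (M ^ k))
  have h4 : LinearMap.ker (adE K M) ≤ LinearMap.ker (adE K (M ^ k)) := by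
    intro Y hY
    rw [LinearMap.mem_ker, adE_apply, sub_eq_zero] at hY ⊢
    have h5 : Commute M Y := hY
    exact h5.pow_left k
  have h5 : LinearMap.ker (adE K M) = LinearMap.ker (adE K (M ^ k)) := by
    apply Submodule.eq_of_le_of_finrank_le h4
    unfold TF.rk at h
    omega
  have h6 : X ∈ LinearMap.ker (adE K (M ^ k)) := by
    rw [LinearMap.mem_ker, adE_apply, sub_eq_zero]
    exact h1
  rw [← h5, LinearMap.mem_ker, adE_apply, sub_eq_zero] at h6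
  exact (show Commute M X from h6).symm

end matrix

section one

variable {n : ℕ} {p : ℕ} [Fact p.Prime] {Γ : Type} [Group Γ]

/-- the ranks of powers of tensor powers are determined by the characteristic polynomial -/
theorem rk_tp_pow {N : ℕ} {ρ : Γ →* GL (Fin N) ℤ_[p]} {R : ℤ[X]} {σ : Γ}
    (hss : CR ({TF.rat ρ σ⁻¹} : Set (Matrix (Fin N) (Fin N) ℚ_[p])))
    (hP : (TF.rat ρ σ⁻¹).charpoly = R.map (algebraMap ℤ ℚ_[p])) (m k : ℕ)
    [DecidableEq (AlgebraicClosure ℚ)] :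
    rk (TF.rat (tp m ρ) (σ ^ k)) =
      npairs ((tpoly N m R).map (algebraMap ℤ (AlgebraicClosure ℚ))).roots k := by
  rw [← rk_inv, ← inv_pow, map_pow, rat_tp, rk_pow_eq_npairs (CR_tpm m hss) (tpoly N m R)
    (tpoly_spec N m R _ _ hP) k]

/-- a polynomial which vanishes at all powers of `σ ^ k` vanishes at `σ`, if the ranks of `ad` of
`σ` and `σ ^ k` in the tensor power are equal -/
theorem eval_eq_zero_of_pow {ρ : Γ →* GL (Fin n) ℤ_[p]} (P : MvPolynomial (Fin n × Fin n) ℚ_[p])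
    {m : ℕ} (hm : (fun σ => MvPolynomial.eval (fun q => TF.rat ρ σ q.1 q.2) P) ∈ Ent ρ m)
    {σ : Γ} {k : ℕ}
    (hss : CR ({TF.rat (tp m (aug ρ)) σ} :
      Set (Matrix (Fin ((n + 1) ^ m)) (Fin ((n + 1) ^ m)) ℚ_[p])))
    (h : rk (TF.rat (tp m (aug ρ)) σ) ≤ rk (TF.rat (tp m (aug ρ)) (σ ^ k)))
    (hP : ∀ j : ℕ, MvPolynomial.eval (fun q => TF.rat ρ ((σ ^ k) ^ j) q.1 q.2) P = 0) :
    MvPolynomial.eval (fun q => TF.rat ρ σ q.1 q.2) P = 0 := by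
  obtain ⟨L, hL⟩ := Ent_linear hm
  have h1 : TF.rat (tp m (aug ρ)) σ ∈
      Algebra.adjoin ℚ_[p] {(TF.rat (tp m (aug ρ)) σ) ^ k} := by
    apply mem_adjoin_of_rk hss
    rw [← map_pow]
    exact h
  rw [← map_pow, ← Subalgebra.mem_toSubmodule, Algebra.adjoin_eq_span] at h1
  have h2 : ∀ z ∈ Submodule.span ℚ_[p] (Submonoid.closure
      {TF.rat (tp m (aug ρ)) (σ ^ k)} :
        Set (Matrix (Fin ((n + 1) ^ m)) (Fin ((n + 1) ^ m)) ℚ_[p])), L z = 0 := by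
    intro z hz
    induction hz using Submodule.span_induction with
    | mem z hz =>
      obtain ⟨j, rfl⟩ := Submonoid.mem_closure_singleton.1 hz
      rw [← map_pow, ← hL]
      exact hP j
    | zero => exact map_zero L
    | add a b _ _ ha hb => rw [map_add, ha, hb, add_zero]
    | smul c a _ ha => rw [map_smul, ha, smul_zero]
  rw [hL]
  exact h2 _ h1

end one

section places

variable {K : Type} [Field K] [NumberField K] {n : ℕ}
  (ρ : ∀ ℓ : ℕ, [Fact ℓ.Prime] → GK K →* GL (Fin n) ℤ_[ℓ])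

/-- Frobenius elements are semisimple at all primes at most places -/
theorem ss_null {S : Set (HeightOneSpectrum (𝓞 K))} (hS : S.Finite)
    (P : HeightOneSpectrum (𝓞 K) → ℤ[X])
    (hρ : ∀ (ℓ : ℕ) [Fact ℓ.Prime], Continuous fun σ => (ρ ℓ σ : Matrix (Fin n) (Fin n) ℤ_[ℓ]))
    (hI : ∀ (ℓ : ℕ) [Fact ℓ.Prime], ∀ v ∉ S, (ℓ : 𝓞 K) ∉ v.asIdeal → ∀ σ, IsInert v σ → ρ ℓ σ = 1)
    (hP : ∀ (ℓ : ℕ) [Fact ℓ.Prime], ∀ v ∉ S, (ℓ : 𝓞 K) ∉ v.asIdeal → ∀ σ, IsFrob v σ →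
      (TF.rat (ρ ℓ) σ⁻¹).charpoly = (P v).map (algebraMap ℤ ℚ_[ℓ])) :
    Tendsto (dens fun v : HeightOneSpectrum (𝓞 K) => ¬ (v ∉ S ∧
      ∀ (ℓ : ℕ) [Fact ℓ.Prime], (ℓ : 𝓞 K) ∉ v.asIdeal → CR (Set.range (TF.rat (ρ ℓ))) →
        ∀ σ, IsFrob v σ → CR ({TF.rat (ρ ℓ) σ⁻¹} : Set (Matrix (Fin n) (Fin n) ℚ_[ℓ]))))
      atTop (𝓝 0) := by
  have h1 := Pool.Agent.X320.FS.compat_ss hS P (overQ ρ) (overQ_continuous ρ hρ)
    (fun ℓ hℓ v hv hvℓ σ hσ => by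
      have h2 := hI ℓ v hv hvℓ σ hσ
      change (Matrix.GeneralLinearGroup.map (algebraMap ℤ_[ℓ] ℚ_[ℓ])) (ρ ℓ σ) = 1
      rw [h2, map_one]) (fun ℓ hℓ v hv hvℓ σ hσ => hP ℓ v hv hvℓ σ hσ)
  have h3 := (dens_all (K := K)).sub h1
  rw [sub_self] at h3
  refine squeeze_zero (fun N => dens_nonneg _ N) (fun N => ?_) h3
  rw [← dens_add_not (fun v : HeightOneSpectrum (𝓞 K) => v ∉ S ∧
    ∀ (ℓ : ℕ) [Fact ℓ.Prime], (ℓ : 𝓞 K) ∉ v.asIdeal →
      Pool.Agent.X320.DS.Semisimple (overQ ρ ℓ) → ∀ σ, IsFrob v σ →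
        Module.End.IsSemisimple (Matrix.toLin' (overQ ρ ℓ σ :
          Matrix (Fin n) (Fin n) ℚ_[ℓ]))) N, add_sub_cancel_left]
  refine dens_mono (fun v hv h => hv ⟨h.1, fun ℓ hℓ hvℓ hss σ hσ => ?_⟩) N
  have h4 := h.2 ℓ hvℓ (overQ_semisimple ρ ℓ hss) σ hσ
  apply CR_of_isSemisimple
  refine Pool.Agent.X320.FS.ss_inv (M := TF.rat (ρ ℓ) σ) ?_ h4
  rw [← map_mul, mul_inv_cancel, map_one]

/-- **Connectedness at one prime implies connectedness at all primes.** -/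
theorem conn_of_conn [MeasurableSpace (GK K)] [BorelSpace (GK K)] (μ : Measure (GK K))
    [μ.IsHaarMeasure] [μ.OuterRegular] {S : Set (HeightOneSpectrum (𝓞 K))} (hS : S.Finite)
    (P : HeightOneSpectrum (𝓞 K) → ℤ[X])
    (hρ : ∀ (ℓ : ℕ) [Fact ℓ.Prime], Continuous fun σ => (ρ ℓ σ : Matrix (Fin n) (Fin n) ℤ_[ℓ]))
    (hI : ∀ (ℓ : ℕ) [Fact ℓ.Prime], ∀ v ∉ S, (ℓ : 𝓞 K) ∉ v.asIdeal → ∀ σ, IsInert v σ → ρ ℓ σ = 1)
    (hP : ∀ (ℓ : ℕ) [Fact ℓ.Prime], ∀ v ∉ S, (ℓ : 𝓞 K) ∉ v.asIdeal → ∀ σ, IsFrob v σ →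
      (TF.rat (ρ ℓ) σ⁻¹).charpoly = (P v).map (algebraMap ℤ ℚ_[ℓ]))
    (q : ℕ) [hq : Fact q.Prime] (hssq : CR (Set.range (TF.rat (ρ q))))
    (hcq : ∀ σ, σ ∈ conn (ρ q)) (ℓ : ℕ) [hℓ : Fact ℓ.Prime]
    (hssℓ : CR (Set.range (TF.rat (ρ ℓ)))) (σ : GK K) : σ ∈ conn (ρ ℓ) := by
  classical
  suffices hconn : ConnOn (ρ ℓ) ⊤ from hconn.le trivial
  refine connOn_of_poly (ρ ℓ) ⊤ fun Q V hV hQV u _ => ?_
  by_contra hu
  set f : GK K → ℚ_[ℓ] := fun σ => MvPolynomial.eval (fun q => TF.rat (ρ ℓ) σ q.1 q.2) Q with hf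
  have hfc : Continuous f := continuous_of_mem (ρ ℓ) (hρ ℓ) (val_mem (ρ ℓ) Q)
  obtain ⟨m, hm⟩ := poly_mem_Ent (ρ ℓ) Q
  -- a coset on which `f` does not vanish
  obtain ⟨W, hW⟩ := ProfiniteGrp.exist_openNormalSubgroup_sub_open_nhds_of_one
    (U := {x : GK K | f (u * x) ≠ 0})
    ((isOpen_compl_singleton (x := (0 : ℚ_[ℓ]))).preimage
      (hfc.comp (continuous_const.mul continuous_id))) (by
      change f (u * 1) ≠ 0
      rw [mul_one]
      exact hu)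
  have hWo : IsOpen (W.toSubgroup : Set (GK K)) := W.isOpen'
  have hWn : W.toSubgroup.Normal := W.isNormal'
  obtain ⟨δ, hδ, hdens⟩ := coset_density W.toSubgroup hWo u
  -- the good places
  have h1 := ss_null (fun ℓ _ => aug (ρ ℓ)) hS (fun v => P v * (X - 1))
    (fun ℓ _ => continuous_dsm (hρ ℓ) continuous_const)
    (fun ℓ _ v hv hvℓ σ hσ => aug_eq_one (hI ℓ v hv hvℓ σ hσ))
    (fun ℓ _ v hv hvℓ σ hσ => aug_charpoly (hP ℓ v hv hvℓ σ hσ))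
  have h2 := compat_regular (fun ℓ _ => tp m (aug (ρ ℓ))) μ hS
    (fun v => tpoly (n + 1) m (P v * (X - 1)))
    (fun ℓ _ => continuous_tp m (continuous_dsm (hρ ℓ) continuous_const))
    (fun ℓ _ v hv hvℓ σ hσ => tp_eq_one m (aug_eq_one (hI ℓ v hv hvℓ σ hσ)))
    (fun ℓ _ v hv hvℓ σ hσ => by
      rw [rat_tp]
      exact tpoly_spec (n + 1) m (P v * (X - 1)) ℚ_[ℓ] _ (aug_charpoly (hP ℓ v hv hvℓ σ hσ)))
  have h3 := Pool.Agent.X320.DS.dens_finite (K := K) _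
    (Pool.Agent.X320.DS.finite_above hℓ.out.ne_zero)
  have h4 := Pool.Agent.X320.DS.dens_finite (K := K) _
    (Pool.Agent.X320.DS.finite_above hq.out.ne_zero)
  obtain ⟨v, hv1, hv2, hv3, hv4, x, hx, hvx⟩ : ∃ v : HeightOneSpectrum (𝓞 K),
      (v ∉ S ∧ ∀ (ℓ : ℕ) [Fact ℓ.Prime], (ℓ : 𝓞 K) ∉ v.asIdeal →
        CR (Set.range (TF.rat (aug (ρ ℓ)))) → ∀ σ, IsFrob v σ →
          CR ({TF.rat (aug (ρ ℓ)) σ⁻¹} : Set (Matrix (Fin (n + 1)) (Fin (n + 1)) ℚ_[ℓ]))) ∧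
      (∀ (ℓ : ℕ) [Fact ℓ.Prime], (ℓ : 𝓞 K) ∉ v.asIdeal →
        CR (Set.range (TF.rat (tp m (aug (ρ ℓ))))) → (∀ σ, σ ∈ conn (tp m (aug (ρ ℓ)))) →
          ∀ σ, IsFrob v σ → CR ({TF.rat (tp m (aug (ρ ℓ))) σ} :
            Set (Matrix (Fin ((n + 1) ^ m)) (Fin ((n + 1) ^ m)) ℚ_[ℓ])) ∧
          ∀ k : ℕ, k ≠ 0 → ∀ g, TF.rk (TF.rat (tp m (aug (ρ ℓ))) g) ≤
            TF.rk (TF.rat (tp m (aug (ρ ℓ))) (σ ^ k))) ∧ (ℓ : 𝓞 K) ∉ v.asIdeal ∧ (q : 𝓞 K) ∉ v.asIdeal ∧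
      ∃ x ∈ W.toSubgroup, IsFrob v (u * x) := by
    by_contra hcon
    push Not at hcon
    have h5 := ((h1.add h2).add h3).add h4
    simp only [add_zero] at h5
    have h6 : Tendsto (dens fun v : HeightOneSpectrum (𝓞 K) =>
        ∃ x ∈ W.toSubgroup, IsFrob v (u * x)) atTop (𝓝 0) := by
      refine squeeze_zero (fun N => dens_nonneg _ N) (fun N => ?_) h5
      refine le_trans (dens_mono (fun v hv => ?_) N) (le_trans (dens_or _ _ N)
        (add_le_add (le_trans (dens_or _ _ N) (add_le_add (dens_or _ _ N) le_rfl)) le_rfl))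
      obtain ⟨x, hx, hvx⟩ := hv
      by_cases e1 : v ∉ S ∧ ∀ (ℓ : ℕ) [Fact ℓ.Prime], (ℓ : 𝓞 K) ∉ v.asIdeal →
        CR (Set.range (TF.rat (aug (ρ ℓ)))) → ∀ σ, IsFrob v σ →
          CR ({TF.rat (aug (ρ ℓ)) σ⁻¹} : Set (Matrix (Fin (n + 1)) (Fin (n + 1)) ℚ_[ℓ]))
      · by_cases e2 : (∀ (ℓ : ℕ) [Fact ℓ.Prime], (ℓ : 𝓞 K) ∉ v.asIdeal →
        CR (Set.range (TF.rat (tp m (aug (ρ ℓ))))) → (∀ σ, σ ∈ conn (tp m (aug (ρ ℓ)))) →
          ∀ σ, IsFrob v σ → CR ({TF.rat (tp m (aug (ρ ℓ))) σ} :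
            Set (Matrix (Fin ((n + 1) ^ m)) (Fin ((n + 1) ^ m)) ℚ_[ℓ])) ∧
          ∀ k : ℕ, k ≠ 0 → ∀ g, TF.rk (TF.rat (tp m (aug (ρ ℓ))) g) ≤
            TF.rk (TF.rat (tp m (aug (ρ ℓ))) (σ ^ k)))
        · by_cases e3 : (ℓ : 𝓞 K) ∈ v.asIdeal
          · exact Or.inl (Or.inr e3)
          · by_cases e4 : (q : 𝓞 K) ∈ v.asIdeal
            · exact Or.inr e4
            · exact (hcon v e1 e2 e3 e4 x hx hvx).elim
        · exact Or.inl (Or.inl (Or.inr e2))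
      · exact Or.inl (Or.inl (Or.inl e1))
    have h7 := tendsto_nhds_unique h6 hdens
    exact hδ.ne h7
  -- the Frobenius element
  set τ := u * x with hτ
  have hfτ : f τ ≠ 0 := hW hx
  have hVi : V.FiniteIndex := by
    have : Finite (GK K ⧸ V) := Subgroup.quotient_finite_of_isOpen V hV
    exact Subgroup.finiteIndex_of_finite_quotient
  obtain ⟨k, hk, -, hkV⟩ := Subgroup.exists_pow_mem_of_index_ne_zero hVi.index_ne_zero τ
  have hctp : ∀ σ, σ ∈ conn (tp m (aug (ρ q))) := by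
    have h5 : ConnOn (ρ q) ⊤ := fun D hD V hV hDV u _ =>
      connOn_conn (ρ q) D hD V hV hDV u (hcq u)
    exact fun σ => (connOn_tp m (connOn_aug h5)).le trivial
  have key : ∀ (r : ℕ) [Fact r.Prime], (r : 𝓞 K) ∉ v.asIdeal →
      CR (Set.range (TF.rat (ρ r))) → ∀ j : ℕ,
      rk (TF.rat (tp m (aug (ρ r))) (τ ^ j)) =
        npairs ((tpoly (n + 1) m (P v * (X - 1))).map
          (algebraMap ℤ (AlgebraicClosure ℚ))).roots j := by
    intro r hr hvr hss j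
    have e1 := hv1.2 r hvr (CR_aug hss) τ hvx
    exact rk_tp_pow e1 (aug_charpoly (hP r v hv1.1 hvr τ hvx)) m j
  refine hfτ (eval_eq_zero_of_pow Q hm (k := k) ?_ ?_ fun j => ?_)
  · have e1 := CR_inv (fun ℓ _ => aug (ρ ℓ)) ℓ τ⁻¹ (hv1.2 ℓ hv3 (CR_aug hssℓ) τ hvx)
    rw [inv_inv] at e1
    rw [rat_tp]
    exact CR_tpm m e1
  · have e1 := key ℓ hv3 hssℓ 1
    have e2 := key ℓ hv3 hssℓ k
    have e3 := key q hv4 hssq 1
    have e4 := key q hv4 hssq k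
    have e5 : TF.rk (TF.rat (tp m (aug (ρ q))) (τ ^ 1)) ≤
        TF.rk (TF.rat (tp m (aug (ρ q))) (τ ^ k)) :=
      (hv2 q hv4 (CR_tp m (continuous_dsm (hρ q) continuous_const) (CR_aug hssq)) hctp τ hvx).2
        k (by omega) (τ ^ 1)
    rw [pow_one] at e1
    omega
  · exact hQV _ (V.pow_mem hkV j)

end places

end Pool.Agent.H850.LA
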