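import Pool.Agent.H850.LA.Main

/-!
# The Lie algebra of the group generated by two elements with Zariski dense powers contains
the derived algebra
-/

set_option autoImplicit false
set_option linter.unusedSectionVars false

open Matrix Filter Topology

namespace Pool.Agent.H850.LA

open Pool.Agent.H850.TF Pool.Agent.H850.MT2

variable {p : ℕ} [Fact p.Prime] {n : ℕ} {Γ : Type} [Group Γ] (ρ : Γ →* GL (Fin n) ℤ_[p])

/-- the integral matrices in a subspace span it up to powers of `p` -/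
theorem exists_integral (X : Matrix (Fin n) (Fin n) ℚ_[p]) :
    ∃ (k : ℕ) (X0 : Matrix (Fin n) (Fin n) ℤ_[p]), ((p : ℚ_[p]) ^ k) • X = toQ X0 := by
  have hp1 : (1 : ℝ) < p := by exact_mod_cast (Fact.out : p.Prime).one_lt
  have h1 : ∀ q : Fin n × Fin n, ∃ k : ℕ, ‖X q.1 q.2‖ < (p : ℝ) ^ k := fun q =>
    pow_unbounded_of_one_lt _ hp1
  choose k hk using h1
  refine ⟨∑ q, k q, fun i j => ⟨((p : ℚ_[p]) ^ (∑ q, k q)) * X i j, ?_⟩, ?_⟩
  · rw [norm_mul, norm_pow, Padic.norm_p, inv_pow]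
    have hpos : (0 : ℝ) < (p : ℝ) ^ (∑ q, k q) := by positivity
    rw [inv_mul_le_iff₀ hpos, mul_one]
    refine (hk (i, j)).le.trans (pow_le_pow_right₀ hp1.le ?_)
    exact Finset.single_le_sum (f := k) (fun _ _ => Nat.zero_le _) (Finset.mem_univ (i, j))
  · ext i j
    rw [toQ_apply]
    rfl

/-- conjugation by `g` minus the identity -/
noncomputable def adD (g : Γ) : Module.End ℚ_[p] (Matrix (Fin n) (Fin n) ℚ_[p]) where
  toFun X := TF.rat ρ g * X * TF.rat ρ g⁻¹ - X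
  map_add' X Y := by rw [mul_add, add_mul]; abel
  map_smul' c X := by
    rw [RingHom.id_apply, mul_smul_comm, smul_mul_assoc, smul_sub]

theorem adD_apply (g : Γ) (X : Matrix (Fin n) (Fin n) ℚ_[p]) :
    adD ρ g X = TF.rat ρ g * X * TF.rat ρ g⁻¹ - X := rfl

theorem one_add_adD_pow (g : Γ) (m : ℕ) (X : Matrix (Fin n) (Fin n) ℚ_[p]) :
    ((1 + adD ρ g) ^ m) X = TF.rat ρ (g ^ m) * X * TF.rat ρ (g ^ m)⁻¹ := by
  induction m generalizing X with
  | zero => simp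
  | succ m ih =>
    rw [pow_succ', Module.End.mul_apply, ih, LinearMap.add_apply, Module.End.one_apply, adD_apply,
      add_sub_cancel]
    have h1 : TF.rat ρ (g ^ (m + 1)) = TF.rat ρ g * TF.rat ρ (g ^ m) := by
      rw [← map_mul, ← pow_succ']
    have h2 : TF.rat ρ (g ^ (m + 1))⁻¹ = TF.rat ρ (g ^ m)⁻¹ * TF.rat ρ g⁻¹ := by
      rw [← map_mul, ← _root_.mul_inv_rev, ← pow_succ']
    rw [h1, h2]
    simp only [mul_assoc]

/-- the adjoint action of a small element modulo an ideal which contains its logarithm -/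
theorem small_trivial {g : Γ} (hg : g ∈ U1 ρ) {L : Matrix (Fin n) (Fin n) ℚ_[p]}
    (hL : Tendsto (fun m : ℕ => ((p : ℚ_[p]) ^ m)⁻¹ • (TF.rat ρ (g ^ (p ^ m)) - 1)) atTop (𝓝 L))
    (G W : Submodule ℚ_[p] (Matrix (Fin n) (Fin n) ℚ_[p]))
    (hG : ∀ X ∈ G, TF.rat ρ g * X * TF.rat ρ g⁻¹ ∈ G) (hLW : ∀ X ∈ G, L * X - X * L ∈ W)
    {X : Matrix (Fin n) (Fin n) ℚ_[p]} (hX : X ∈ G) :
    TF.rat ρ g * X * TF.rat ρ g⁻¹ - X ∈ W := by
  classical
  obtain ⟨a, ha⟩ := hg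
  have hga : TF.rat ρ g = 1 + ((p : ℚ_[p]) ^ 2) • toQ a := by
    rw [rat_apply, ha, map_add, map_one, toQ_smul, map_pow]
    simp
  have hp0 : (p : ℚ_[p]) ≠ 0 := ell_ne
  -- the integral elements
  set I : Set (Matrix (Fin n) (Fin n) ℚ_[p]) := {X | X ∈ G ∧ ∃ X0, X = toQ X0} with hI
  have hID : ∀ X ∈ I, ∃ X' ∈ I, adD ρ g X = ((p : ℚ_[p]) ^ 2) • X' := by
    rintro X ⟨hXG, X0, hX0⟩
    have h1 : adD ρ g X = ((p : ℚ_[p]) ^ 2) • toQ ((a * X0 - X0 * a) *
        ((ρ g⁻¹ : GL (Fin n) ℤ_[p]) : Matrix (Fin n) (Fin n) ℤ_[p])) := by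
      have h2 : adD ρ g X = (TF.rat ρ g * X - X * TF.rat ρ g) * TF.rat ρ g⁻¹ := by
        rw [adD_apply, sub_mul, mul_assoc X, rat_mul_inv, mul_one]
      rw [h2, hga, hX0]
      have h3 : (1 + ((p : ℚ_[p]) ^ 2) • toQ a) * toQ X0 - toQ X0 * (1 + ((p : ℚ_[p]) ^ 2) • toQ a) =
          ((p : ℚ_[p]) ^ 2) • toQ (a * X0 - X0 * a) := by
        rw [map_sub, map_mul, map_mul, add_mul, mul_add, smul_mul_assoc, mul_smul_comm, one_mul,
          mul_one, smul_sub]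
        abel
      rw [h3, smul_mul_assoc, map_mul toQ (a * X0 - X0 * a)]
      rfl
    refine ⟨_, ⟨?_, _, rfl⟩, h1⟩
    have h4 : adD ρ g X ∈ G := G.sub_mem (hG X hXG) hXG
    rw [h1] at h4
    have h5 := G.smul_mem (((p : ℚ_[p]) ^ 2)⁻¹) h4
    rwa [smul_smul, inv_mul_cancel₀ (pow_ne_zero _ hp0), one_smul] at h5
  -- the statement for the integral elements
  have main : ∀ X ∈ I, adD ρ g X ∈ W := by
    intro X hXI
    by_contra hne
    obtain ⟨lam, hlam, hle⟩ := Submodule.exists_le_ker_of_notMem hne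
    apply hlam
    have hcont : Continuous lam := lam.continuous_of_finiteDimensional
    have hK : ∀ X ∈ I, ‖lam X‖ ≤ 1 + ∑ i, ∑ j, ‖lam (Matrix.single i j 1)‖ := by
      rintro X ⟨-, X0, rfl⟩
      have e1 : lam (toQ X0) = ∑ i, ∑ j, toQ X0 i j * lam (Matrix.single i j 1) := by
        conv_lhs => rw [Matrix.matrix_eq_sum_single (toQ X0)]
        rw [map_sum]
        refine Finset.sum_congr rfl fun i _ => ?_
        rw [map_sum]
        refine Finset.sum_congr rfl fun j _ => ?_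
        have e8 : Matrix.single i j (toQ X0 i j) = (toQ X0 i j) • Matrix.single i j (1 : ℚ_[p]) := by
          rw [Matrix.smul_single, smul_eq_mul, mul_one]
        rw [e8, map_smul, smul_eq_mul]
      rw [e1]
      refine le_trans ?_ (le_add_of_nonneg_left zero_le_one)
      refine (norm_sum_le _ _).trans (Finset.sum_le_sum fun i _ => ?_)
      refine (norm_sum_le _ _).trans (Finset.sum_le_sum fun j _ => ?_)
      rw [norm_mul]
      refine mul_le_of_le_one_left (norm_nonneg _) ?_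
      rw [toQ_apply]
      exact PadicInt.norm_le_one _
    refine key_zero (adD ρ g) I hID lam _ (by positivity) hK ?_ X hXI
    rintro X ⟨hXG, -⟩
    have h1 := (hcont.tendsto _).comp (bracket_lim ρ hL X)
    have h2 : lam (L * X - X * L) = 0 := hle (hLW X hXG)
    rw [h2] at h1
    refine h1.congr fun m => ?_
    rw [Function.comp_apply, map_smul, smul_eq_mul, one_add_adD_pow]
  obtain ⟨k, X0, hk⟩ := exists_integral X
  have h1 := main (((p : ℚ_[p]) ^ k) • X) ⟨G.smul_mem _ hX, X0, hk⟩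
  rw [map_smul] at h1
  have h5 := W.smul_mem (((p : ℚ_[p]) ^ k)⁻¹) h1
  rwa [smul_smul, inv_mul_cancel₀ (pow_ne_zero _ hp0), one_smul] at h5

/-- conjugates of tangent vectors -/
theorem tanH_conj {H : Subgroup Γ} {g : Γ} (hg : g ∈ H) {X : Matrix (Fin n) (Fin n) ℚ_[p]}
    (hX : X ∈ tanH ρ H) : TF.rat ρ g * X * TF.rat ρ g⁻¹ ∈ tanH ρ H :=
  tangent_conj ((TF.rat ρ).comp H.subtype) ⟨g, hg⟩ hX

/-- the limit of tangent vectors -/
theorem bracket_mem {H : Subgroup Γ} {X Y : Matrix (Fin n) (Fin n) ℚ_[p]}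
    (W : Submodule ℚ_[p] (Matrix (Fin n) (Fin n) ℚ_[p]))
    (hW : IsClosed (W : Set (Matrix (Fin n) (Fin n) ℚ_[p]))) (hX : X ∈ tanH ρ H)
    (h : ∀ g ∈ H, TF.rat ρ g * Y * TF.rat ρ g⁻¹ - Y ∈ W) : X * Y - Y * X ∈ W := by
  rw [mem_tanH] at hX
  obtain ⟨σ, hσ, hl⟩ := hX
  refine hW.mem_of_tendsto (bracket_lim ρ hl Y) (Eventually.of_forall fun m => ?_)
  exact W.smul_mem _ (h _ (hσ m))

/-- **The Lie algebra of the group generated by `x ^ k` and `y ^ k` contains the derived algebra of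
the Lie algebra of the whole group**, if all pairs of powers are Zariski dense. -/
theorem derived_le {x y : Γ} (hZ : ∀ k : ℕ, k ≠ 0 → ZD ρ (x ^ k) (y ^ k)) {m : ℕ} (hm : m ≠ 0)
    (hx : x ^ m ∈ U1 ρ) (hy : y ^ m ∈ U1 ρ) {k : ℕ} (hk : k ≠ 0)
    {X Y : Matrix (Fin n) (Fin n) ℚ_[p]} (hX : X ∈ tanH ρ ⊤) (hY : Y ∈ tanH ρ ⊤) :
    X * Y - Y * X ∈ tanH ρ (Subgroup.closure {x ^ k, y ^ k}) := by
  set H := Subgroup.closure {x ^ k, y ^ k} with hH
  have hxH : x ^ k ∈ H := Subgroup.subset_closure (Set.mem_insert _ _)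
  have hyH : y ^ k ∈ H := Subgroup.subset_closure (Set.mem_insert_of_mem _ (Set.mem_singleton _))
  -- stability
  have hst : ∀ u : Γ, ∀ Z ∈ tanH ρ H, TF.rat ρ u * Z * TF.rat ρ u⁻¹ ∈ tanH ρ H := by
    intro u Z hZH
    have h1 := poly_adj ρ (hZ k hk) (tanH ρ H) Z 0 (fun g hg => by
      rw [sub_zero]
      exact tanH_conj ρ hg hZH) u
    rwa [sub_zero] at h1
  have hideal : ∀ Z ∈ tanH ρ (⊤ : Subgroup Γ), ∀ Z' ∈ tanH ρ H, Z * Z' - Z' * Z ∈ tanH ρ H := by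
    intro Z hZt Z' hZ'
    exact bracket_mem ρ (tanH ρ H) (isClosed_tanH ρ H) hZt fun g _ =>
      (tanH ρ H).sub_mem (hst g Z' hZ') hZ'
  -- the small elements
  have hsmall : ∀ z : Γ, z ^ k ∈ H → z ^ m ∈ U1 ρ → ∀ Z ∈ tanH ρ (⊤ : Subgroup Γ),
      TF.rat ρ (z ^ (k * m)) * Z * TF.rat ρ (z ^ (k * m))⁻¹ - Z ∈ tanH ρ H := by
    intro z hz hzm Z hZt
    have h1 : z ^ (k * m) ∈ U1 ρ := by
      rw [mul_comm, pow_mul]
      exact (U1 ρ).pow_mem hzm k
    obtain ⟨L, hL⟩ := exists_log_tan ρ h1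
    have hLH : L ∈ tanH ρ H := by
      rw [mem_tanH]
      refine ⟨fun j => (z ^ (k * m)) ^ (p ^ j), fun j => H.pow_mem ?_ _, hL⟩
      rw [pow_mul]
      exact H.pow_mem hz m
    refine small_trivial ρ h1 hL (tanH ρ ⊤) (tanH ρ H) (fun X hX => tanH_conj ρ (Subgroup.mem_top _) hX)
      (fun X hX => ?_) hZt
    have h2 := (tanH ρ H).neg_mem (hideal X hX L hLH)
    rwa [neg_sub] at h2
  -- the group generated by the small elements
  have hcl : ∀ g ∈ Subgroup.closure {x ^ (k * m), y ^ (k * m)}, ∀ Z ∈ tanH ρ (⊤ : Subgroup Γ),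
      TF.rat ρ g * Z * TF.rat ρ g⁻¹ - Z ∈ tanH ρ H := by
    intro g hg
    induction hg using Subgroup.closure_induction with
    | mem g hg =>
      rcases hg with rfl | hg
      · exact hsmall x hxH hx
      · rw [Set.mem_singleton_iff] at hg
        rw [hg]
        exact hsmall y hyH hy
    | one =>
      intro Z _
      rw [inv_one, map_one, one_mul, mul_one, sub_self]
      exact (tanH ρ H).zero_mem
    | mul g g' _ _ ih ih' =>
      intro Z hZt
      have h1 := hst g _ (ih' Z hZt)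
      have h2 := (tanH ρ H).add_mem h1 (ih Z hZt)
      have h3 : TF.rat ρ g * (TF.rat ρ g' * Z * TF.rat ρ g'⁻¹ - Z) * TF.rat ρ g⁻¹ +
          (TF.rat ρ g * Z * TF.rat ρ g⁻¹ - Z) =
            TF.rat ρ (g * g') * Z * TF.rat ρ (g * g')⁻¹ - Z := by
        rw [_root_.mul_inv_rev, map_mul, map_mul, mul_sub, sub_mul]
        simp only [mul_assoc]
        abel
      rwa [h3] at h2
    | inv g _ ih =>
      intro Z hZt
      have h1 := (tanH ρ H).neg_mem (hst g⁻¹ _ (ih Z hZt))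
      have h3 : -(TF.rat ρ g⁻¹ * (TF.rat ρ g * Z * TF.rat ρ g⁻¹ - Z) * TF.rat ρ g⁻¹⁻¹) =
          TF.rat ρ g⁻¹ * Z * TF.rat ρ g⁻¹⁻¹ - Z := by
        rw [inv_inv, mul_sub, sub_mul]
        have e1 : TF.rat ρ g⁻¹ * (TF.rat ρ g * Z * TF.rat ρ g⁻¹) * TF.rat ρ g = Z := by
          calc TF.rat ρ g⁻¹ * (TF.rat ρ g * Z * TF.rat ρ g⁻¹) * TF.rat ρ g =
              (TF.rat ρ g⁻¹ * TF.rat ρ g) * Z * (TF.rat ρ g⁻¹ * TF.rat ρ g) := by
                simp only [mul_assoc]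
            _ = Z := by rw [rat_inv_mul, one_mul, mul_one]
        rw [e1, neg_sub]
      rwa [h3] at h1
  have hall : ∀ u : Γ, ∀ Z ∈ tanH ρ (⊤ : Subgroup Γ),
      TF.rat ρ u * Z * TF.rat ρ u⁻¹ - Z ∈ tanH ρ H := by
    intro u Z hZt
    exact poly_adj ρ (hZ (k * m) (Nat.mul_ne_zero hk hm)) (tanH ρ H) Z Z
      (fun g hg => hcl g hg Z hZt) u
  exact bracket_mem ρ (tanH ρ H) (isClosed_tanH ρ H) hX fun g _ => hall g Y hY

end Pool.Agent.H850.LA
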