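import Pool.Agent.H850.LA.Fin

/-!
# Determinants of Frobenius elements of positive weight
-/

set_option autoImplicit false
set_option linter.unusedSectionVars false

open Matrix Filter Topology Polynomial

namespace Pool.Agent.H850.LA

variable {p : ℕ} [Fact p.Prime] {n : ℕ}

theorem det_pow_ne {P : ℤ[X]} {A : Matrix (Fin n) (Fin n) ℚ_[p]}
    (hA : A.charpoly = P.map (algebraMap ℤ ℚ_[p])) {q : ℕ} (hq : 2 ≤ q) {w : ℕ} (hw : w ≠ 0)
    (hn : n ≠ 0) (hpure : ∀ z ∈ (P.map (algebraMap ℤ ℂ)).roots, ‖z‖ ^ 2 = (q : ℝ) ^ w) {k : ℕ}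
    (hk : k ≠ 0) : A.det ^ k ≠ 1 := by
  intro h
  have hinj : Function.Injective (algebraMap ℤ ℚ_[p]) := Int.cast_injective
  have hinjC : Function.Injective (algebraMap ℤ ℂ) := Int.cast_injective
  have hmon : P.Monic := by
    refine Polynomial.monic_of_injective hinj ?_
    rw [← hA]
    exact Matrix.charpoly_monic A
  have hdeg : P.natDegree = n := by
    have h1 := Polynomial.natDegree_map_eq_of_injective hinj P
    rw [← hA, Matrix.charpoly_natDegree_eq_dim, Fintype.card_fin] at h1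
    exact h1.symm
  have h0 : (P.coeff 0 : ℚ_[p]) = (-1) ^ n * A.det := by
    have h1 : A.charpoly.coeff 0 = (P.map (algebraMap ℤ ℚ_[p])).coeff 0 := by rw [hA]
    rw [Polynomial.coeff_map] at h1
    have h2 := Matrix.det_eq_sign_charpoly_coeff A
    rw [h1, Fintype.card_fin] at h2
    rw [h2, ← mul_assoc, ← mul_pow, neg_one_mul, neg_neg, one_pow, one_mul]
    rfl
  have h2 : (P.coeff 0) ^ (2 * k) = 1 := by
    have h3 : ((P.coeff 0 : ℚ_[p])) ^ (2 * k) = 1 := by
      have e1 : (((-1 : ℚ_[p]) ^ n * A.det)) ^ (2 * k) = (((-1 : ℚ_[p]) ^ 2) ^ (n * k)) *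
          ((A.det ^ k) ^ 2) := by
        rw [mul_pow, ← pow_mul, ← pow_mul, ← pow_mul]
        congr 2 <;> ring
      rw [h0, e1, h, neg_one_sq, one_pow, one_pow, one_mul]
    exact_mod_cast h3
  have h3 : (P.coeff 0).natAbs = 1 := by
    have h4 : (P.coeff 0).natAbs ^ (2 * k) = 1 := by
      rw [← Int.natAbs_pow, h2]
      rfl
    exact (Nat.pow_eq_one.1 h4).resolve_right (by omega)
  -- the complex side
  have hsplit : (P.map (algebraMap ℤ ℂ)).Splits := IsAlgClosed.splits _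
  have hmonC : (P.map (algebraMap ℤ ℂ)).Monic := hmon.map _
  have hdegC : (P.map (algebraMap ℤ ℂ)).natDegree = n := by
    rw [Polynomial.natDegree_map_eq_of_injective hinjC, hdeg]
  have hcard : (P.map (algebraMap ℤ ℂ)).roots.card = n := by
    rw [← hdegC]
    exact (hsplit.natDegree_eq_card_roots).symm
  have h5 : (P.map (algebraMap ℤ ℂ)).coeff 0 =
      (-1) ^ n * (P.map (algebraMap ℤ ℂ)).roots.prod := by
    rw [hsplit.coeff_zero_eq_prod_roots_of_monic hmonC, hdegC]
  have h6 : ‖(P.map (algebraMap ℤ ℂ)).roots.prod‖ = 1 := by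
    have h7 : ‖(P.map (algebraMap ℤ ℂ)).coeff 0‖ = 1 := by
      rw [Polynomial.coeff_map]
      have h8 : ‖(algebraMap ℤ ℂ) (P.coeff 0)‖ = ((P.coeff 0).natAbs : ℝ) := by
        rw [eq_intCast, Complex.norm_intCast, Nat.cast_natAbs, Int.cast_abs]
      rw [h8, h3, Nat.cast_one]
    rw [h5, norm_mul, norm_pow, norm_neg, norm_one, one_pow, one_mul] at h7
    exact h7
  have h7 : ∀ s : Multiset ℂ, (∀ z ∈ s, ‖z‖ ^ 2 = (q : ℝ) ^ w) →
      ‖s.prod‖ ^ 2 = ((q : ℝ) ^ w) ^ s.card := by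
    intro s
    induction s using Multiset.induction_on with
    | empty => intro _; simp
    | cons z s ih =>
      intro hs
      rw [Multiset.prod_cons, norm_mul, mul_pow, Multiset.card_cons,
        ih fun y hy => hs y (Multiset.mem_cons_of_mem hy), hs z (Multiset.mem_cons_self _ _)]
      exact (pow_succ' _ _).symm
  have h8 := h7 _ hpure
  rw [h6, hcard, one_pow, ← pow_mul] at h8
  have h9 : (1 : ℝ) < (q : ℝ) ^ (w * n) := by
    refine one_lt_pow₀ ?_ (Nat.mul_ne_zero hw hn)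
    exact_mod_cast (by omega : 1 < q)
  rw [← h8] at h9
  exact lt_irrefl _ h9

end Pool.Agent.H850.LA
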