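import Pool.Agent.H850.LA.Hom

/-!
# When the closure of the group generated by two elements is open
-/

set_option autoImplicit false
set_option linter.unusedSectionVars false

open Matrix Filter Topology

namespace Pool.Agent.H850.LA

open Pool.Agent.H850.TF Pool.Agent.H850.MT2

variable {p : ℕ} [Fact p.Prime] {n : ℕ} {Γ : Type} [Group Γ] (ρ : Γ →* GL (Fin n) ℤ_[p])

/-- the span of the brackets -/
noncomputable def brk : Submodule ℚ_[p] (Matrix (Fin n) (Fin n) ℚ_[p]) :=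
  Submodule.span ℚ_[p] {D | ∃ A ∈ tanH ρ (⊤ : Subgroup Γ), ∃ B ∈ tanH ρ (⊤ : Subgroup Γ),
    D = A * B - B * A}

/-- **Two elements with Zariski dense powers generate an open subgroup if the Lie algebra has an
abelianization of dimension at most one.** -/
theorem closure_open {x y : Γ} (hZ : ∀ k : ℕ, k ≠ 0 → ZD ρ (x ^ k) (y ^ k)) {m : ℕ} (hm : m ≠ 0)
    (hx : x ^ m ∈ U1 ρ) (hy : y ^ m ∈ U1 ρ) (hdet : ∀ k : ℕ, k ≠ 0 → (TF.rat ρ x).det ^ k ≠ 1)
    {Z : Matrix (Fin n) (Fin n) ℚ_[p]}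
    (hab : ∀ A ∈ tanH ρ (⊤ : Subgroup Γ), ∃ c : ℚ_[p], A - c • Z ∈ brk ρ) {k : ℕ} (hk : k ≠ 0) :
    ∃ N : ℕ, ∀ σ, Lev ρ N σ →
      TF.rat ρ σ ∈ closure (TF.rat ρ '' (Subgroup.closure {x ^ k, y ^ k} : Set Γ)) := by
  refine open_of_tan ρ ?_
  set H := Subgroup.closure {x ^ k, y ^ k} with hH
  have hxH : x ^ k ∈ H := Subgroup.subset_closure (Set.mem_insert _ _)
  have hbrk : brk ρ ≤ tanH ρ H := by
    refine Submodule.span_le.2 ?_
    rintro D ⟨A, hA, B, hB, rfl⟩
    exact derived_le ρ hZ hm hx hy hk hA hB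
  have htr : ∀ D ∈ brk ρ, D.trace = 0 := by
    intro D hD
    unfold brk at hD
    induction hD using Submodule.span_induction with
    | mem D hD =>
      obtain ⟨A, -, B, -, rfl⟩ := hD
      rw [Matrix.trace_sub, Matrix.trace_mul_comm, sub_self]
    | zero => exact Matrix.trace_zero _ _
    | add A B _ _ hA hB => rw [Matrix.trace_add, hA, hB, add_zero]
    | smul c A _ hA => rw [Matrix.trace_smul, hA, smul_zero]
  have h1 : x ^ (k * m) ∈ U1 ρ := by
    rw [mul_comm, pow_mul]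
    exact (U1 ρ).pow_mem hx k
  obtain ⟨L, hL⟩ := exists_log_tan ρ h1
  have hLH : L ∈ tanH ρ H := by
    rw [mem_tanH]
    refine ⟨fun j => (x ^ (k * m)) ^ (p ^ j), fun j => H.pow_mem ?_ _, hL⟩
    rw [pow_mul]
    exact H.pow_mem hxH m
  have hLtr : L.trace ≠ 0 := by
    intro h0
    have h2 := det_eq_one ρ h1 hL h0
    rw [map_pow, Matrix.det_pow] at h2
    exact hdet (k * m) (Nat.mul_ne_zero hk hm) h2
  obtain ⟨c, hc⟩ := hab L (tanH_mono ρ le_top hLH)
  have hc0 : c ≠ 0 := by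
    rintro rfl
    rw [zero_smul, sub_zero] at hc
    exact hLtr (htr L hc)
  have hZH : Z ∈ tanH ρ H := by
    have h2 := (tanH ρ H).sub_mem hLH (hbrk hc)
    rw [sub_sub_cancel] at h2
    have h3 := (tanH ρ H).smul_mem c⁻¹ h2
    rwa [smul_smul, inv_mul_cancel₀ hc0, one_smul] at h3
  intro A hA
  obtain ⟨d, hd⟩ := hab A hA
  have h2 := (tanH ρ H).add_mem (hbrk hd) ((tanH ρ H).smul_mem d hZH)
  rwa [sub_add_cancel] at h2

/-- the elements acting trivially modulo `p ^ m` -/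
def levSub (m : ℕ) : Subgroup Γ where
  carrier := {σ | Lev ρ m σ}
  one_mem' := ⟨0, by rw [map_one, Units.val_one, smul_zero, add_zero]⟩
  mul_mem' := by
    rintro σ τ ⟨a, ha⟩ ⟨b, hb⟩
    refine ⟨a + b + (p : ℤ_[p]) ^ m • (a * b), ?_⟩
    rw [map_mul, Units.val_mul, ha, hb]
    simp only [mul_add, add_mul, one_mul, mul_one, smul_add, smul_mul_assoc, mul_smul_comm]
    abel
  inv_mem' := by
    rintro σ ⟨a, ha⟩
    refine ⟨-(((ρ σ⁻¹ : GL (Fin n) ℤ_[p]) : Matrix (Fin n) (Fin n) ℤ_[p]) * a), ?_⟩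
    have h1 : ((ρ σ⁻¹ : GL (Fin n) ℤ_[p]) : Matrix (Fin n) (Fin n) ℤ_[p]) *
        (ρ σ : Matrix (Fin n) (Fin n) ℤ_[p]) = 1 := by
      rw [← Units.val_mul, ← map_mul, inv_mul_cancel, map_one, Units.val_one]
    rw [ha, mul_add, mul_one, mul_smul_comm] at h1
    rw [smul_neg, ← sub_eq_add_neg, eq_sub_iff_add_eq]
    exact h1

theorem isOpen_levSub [TopologicalSpace Γ]
    (hρ : Continuous fun σ => (ρ σ : Matrix (Fin n) (Fin n) ℤ_[p])) (m : ℕ) :
    IsOpen (levSub ρ m : Set Γ) := by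
  have h1 : (levSub ρ m : Set Γ) = ⋂ i : Fin n, ⋂ j : Fin n,
      {σ | (ρ σ : Matrix (Fin n) (Fin n) ℤ_[p]) i j - (1 : Matrix (Fin n) (Fin n) ℤ_[p]) i j ∈
        Metric.closedBall (0 : ℤ_[p]) ((p : ℝ) ^ (-(m : ℕ) : ℤ))} := by
    ext σ
    simp only [SetLike.mem_coe, Set.mem_iInter]
    constructor
    · rintro ⟨a, ha⟩ i j
      change _ ∈ Metric.closedBall _ _
      rw [mem_closedBall_zero_iff, PadicInt.norm_le_pow_iff_mem_span_pow,
        Ideal.mem_span_singleton]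
      refine ⟨a i j, ?_⟩
      rw [ha]
      simp
    · intro h
      have h2 : ∀ i j, ∃ c : ℤ_[p], (ρ σ : Matrix (Fin n) (Fin n) ℤ_[p]) i j -
          (1 : Matrix (Fin n) (Fin n) ℤ_[p]) i j = (p : ℤ_[p]) ^ m * c := by
        intro i j
        have h3 := h i j
        change _ ∈ Metric.closedBall _ _ at h3
        rw [mem_closedBall_zero_iff, PadicInt.norm_le_pow_iff_mem_span_pow,
          Ideal.mem_span_singleton] at h3
        exact h3
      choose c hc using h2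
      refine ⟨Matrix.of c, ?_⟩
      ext i j
      have := hc i j
      rw [sub_eq_iff_eq_add'] at this
      rw [this]
      simp
  rw [h1]
  refine isOpen_iInter_of_finite fun i => isOpen_iInter_of_finite fun j => ?_
  have hcont : Continuous fun σ : Γ => (ρ σ : Matrix (Fin n) (Fin n) ℤ_[p]) i j -
      (1 : Matrix (Fin n) (Fin n) ℤ_[p]) i j :=
    (hρ.matrix_elem i j).sub continuous_const
  exact (IsUltrametricDist.isOpen_closedBall _ (by
    have : (0 : ℝ) < p := by exact_mod_cast (Fact.out : p.Prime).pos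
    positivity)).preimage hcont

/-- powers of an element of a compact group act trivially modulo `p ^ 2` -/
theorem exists_pow_U1 [TopologicalSpace Γ] [IsTopologicalGroup Γ] [CompactSpace Γ]
    (hρ : Continuous fun σ => (ρ σ : Matrix (Fin n) (Fin n) ℤ_[p])) :
    ∃ m : ℕ, m ≠ 0 ∧ ∀ x : Γ, x ^ m ∈ U1 ρ := by
  have hfin : Finite (Γ ⧸ U1 ρ) := Subgroup.quotient_finite_of_isOpen _ (isOpen_U1 ρ hρ)
  have hidx : (U1 ρ).FiniteIndex := Subgroup.finiteIndex_of_finite_quotient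
  refine ⟨(U1 ρ).index, hidx.index_ne_zero, fun x => ?_⟩
  exact Subgroup.pow_index_mem (U1 ρ) x

end Pool.Agent.H850.LA
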