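import Pool.Agent.H850.LA.Opn

/-!
# Homomorphisms of algebraic representations and Zariski dense pairs; the trace of a logarithm
-/

set_option autoImplicit false
set_option linter.unusedSectionVars false

open Matrix Filter Topology

namespace Pool.Agent.H850.LA

open Pool.Agent.H850.TF Pool.Agent.H850.MT2

variable {p : ℕ} [Fact p.Prime] {n : ℕ} {Γ : Type} [Group Γ] (ρ : Γ →* GL (Fin n) ℤ_[p])

theorem det_rat_ne (u : Γ) : (TF.rat ρ u).det ≠ 0 := by
  intro h0
  have h3 : (TF.rat ρ u).det * (TF.rat ρ u⁻¹).det = 1 := by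
    rw [← Matrix.det_mul, rat_mul_inv, Matrix.det_one]
  rw [h0, zero_mul] at h3
  exact zero_ne_one h3

/-- a map between two representations which are algebraic over `ρ` commutes with everything if it
commutes with a Zariski dense pair -/
theorem hom_zd {nA nB : ℕ} (A : Γ →* Matrix (Fin nA) (Fin nA) ℚ_[p])
    (B : Γ →* Matrix (Fin nB) (Fin nB) ℚ_[p]) {eA eB : ℕ}
    {QA : Fin nA → Fin nA → MvPolynomial (Fin n × Fin n) ℚ_[p]}
    {QB : Fin nB → Fin nB → MvPolynomial (Fin n × Fin n) ℚ_[p]}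
    (hA : ∀ σ i j, (TF.rat ρ σ).det ^ eA * A σ i j =
      MvPolynomial.eval (fun q => TF.rat ρ σ q.1 q.2) (QA i j))
    (hB : ∀ σ i j, (TF.rat ρ σ).det ^ eB * B σ i j =
      MvPolynomial.eval (fun q => TF.rat ρ σ q.1 q.2) (QB i j))
    {x y : Γ} (h : ZD ρ x y) {φ : Matrix (Fin nB) (Fin nA) ℚ_[p]} (hx : φ * A x = B x * φ)
    (hy : φ * A y = B y * φ) (u : Γ) : φ * A u = B u * φ := by
  have hcl : ∀ g ∈ Subgroup.closure {x, y}, φ * A g = B g * φ := by
    intro g hg
    induction hg using Subgroup.closure_induction with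
    | mem g hg =>
      rcases hg with rfl | hg
      · exact hx
      · rw [Set.mem_singleton_iff] at hg
        rw [hg]
        exact hy
    | one => rw [map_one, map_one, Matrix.mul_one, Matrix.one_mul]
    | mul g g' _ _ hg hg' =>
      rw [map_mul, map_mul, ← Matrix.mul_assoc, hg, Matrix.mul_assoc, hg', Matrix.mul_assoc]
    | inv g _ hg =>
      have e1 : A g * A g⁻¹ = 1 := by rw [← map_mul, mul_inv_cancel, map_one]
      have e2 : B g⁻¹ * B g = 1 := by rw [← map_mul, inv_mul_cancel, map_one]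
      calc φ * A g⁻¹ = B g⁻¹ * B g * (φ * A g⁻¹) := by rw [e2, Matrix.one_mul]
        _ = B g⁻¹ * (B g * φ) * A g⁻¹ := by simp only [Matrix.mul_assoc]
        _ = B g⁻¹ * φ * (A g * A g⁻¹) := by
            rw [← hg]
            simp only [Matrix.mul_assoc]
        _ = B g⁻¹ * φ := by rw [e1, Matrix.mul_one]
  set X : Matrix (Fin n) (Fin n) (MvPolynomial (Fin n × Fin n) ℚ_[p]) :=
    Matrix.mvPolynomialX (Fin n) (Fin n) ℚ_[p] with hX
  ext a b
  set P : MvPolynomial (Fin n × Fin n) ℚ_[p] :=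
    X.det ^ eB * ∑ i, MvPolynomial.C (φ a i) * QA i b -
      X.det ^ eA * ∑ i, QB a i * MvPolynomial.C (φ i b) with hP
  have key : ∀ g, MvPolynomial.eval (fun q : Fin n × Fin n => TF.rat ρ g q.1 q.2) P =
      (TF.rat ρ g).det ^ (eA + eB) * ((φ * A g) a b - (B g * φ) a b) := by
    intro g
    set ψ : MvPolynomial (Fin n × Fin n) ℚ_[p] →+* ℚ_[p] :=
      MvPolynomial.eval (fun q : Fin n × Fin n => TF.rat ρ g q.1 q.2) with hψ
    have e1 : X.map ψ = TF.rat ρ g := by
      ext i j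
      rw [Matrix.map_apply, hX, Matrix.mvPolynomialX_apply, hψ, MvPolynomial.eval_X]
    have e3 : ψ X.det = (TF.rat ρ g).det := by
      rw [← e1]
      exact RingHom.map_det ψ X
    rw [hP, map_sub, map_mul, map_mul, map_pow, map_pow, e3, map_sum, map_sum, Matrix.mul_apply,
      Matrix.mul_apply, mul_sub, pow_add, Finset.mul_sum, Finset.mul_sum, Finset.mul_sum,
      Finset.mul_sum]
    congr 1
    · refine Finset.sum_congr rfl fun i _ => ?_
      rw [map_mul, hψ, MvPolynomial.eval_C, ← hA]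
      ring
    · refine Finset.sum_congr rfl fun i _ => ?_
      rw [map_mul, hψ, MvPolynomial.eval_C, ← hB]
      ring
  have h1 := h P (fun g hg => by
    rw [key, hcl g hg, sub_self, mul_zero]) u
  rw [key] at h1
  rcases mul_eq_zero.1 h1 with h2 | h2
  · exact absurd h2 (pow_ne_zero _ (det_rat_ne ρ u))
  · exact sub_eq_zero.1 h2

/-- a unit congruent to one modulo `p ^ 2` whose logarithm is zero is one -/
theorem eq_one_of_log {δ : ℚ_[p]} {c : ℤ_[p]} (hδ : δ = 1 + (p : ℚ_[p]) ^ 2 * c)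
    (hlim : Tendsto (fun m : ℕ => ((p : ℚ_[p]) ^ m)⁻¹ * (δ ^ (p ^ m) - 1)) atTop (𝓝 0)) : δ = 1 := by
  set D : Module.End ℚ_[p] ℚ_[p] := LinearMap.mulLeft ℚ_[p] (δ - 1) with hD
  have hpow : ∀ (m : ℕ) (z : ℚ_[p]), ((1 + D) ^ m) z = δ ^ m * z := by
    intro m
    induction m with
    | zero => intro z; simp
    | succ m ih =>
      intro z
      rw [pow_succ', Module.End.mul_apply, ih, LinearMap.add_apply, Module.End.one_apply, hD,
        LinearMap.mulLeft_apply, pow_succ']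
      ring
  have h1 := key_zero D {z : ℚ_[p] | ‖z‖ ≤ 1} (fun z hz => by
    refine ⟨c * z, ?_, ?_⟩
    · show ‖(c : ℚ_[p]) * z‖ ≤ 1
      rw [norm_mul]
      exact mul_le_one₀ (PadicInt.norm_le_one c) (norm_nonneg _) hz
    · rw [hD, LinearMap.mulLeft_apply, hδ, smul_eq_mul]
      ring) LinearMap.id 1 zero_lt_one (fun z hz => hz) (fun z _ => by
      have h2 := hlim.mul_const z
      rw [zero_mul] at h2
      refine h2.congr fun m => ?_
      rw [hpow, LinearMap.id_apply]
      ring) 1 (by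
      show ‖(1 : ℚ_[p])‖ ≤ 1
      rw [norm_one])
  rw [LinearMap.id_apply, hD, LinearMap.mulLeft_apply, mul_one] at h1
  exact sub_eq_zero.1 h1

/-- if the logarithm of a small element has trace zero, the element has determinant one -/
theorem det_eq_one {g : Γ} (hg : g ∈ U1 ρ) {L : Matrix (Fin n) (Fin n) ℚ_[p]}
    (hL : Tendsto (fun m : ℕ => ((p : ℚ_[p]) ^ m)⁻¹ • (TF.rat ρ (g ^ (p ^ m)) - 1)) atTop (𝓝 L))
    (ht : L.trace = 0) : (TF.rat ρ g).det = 1 := by
  obtain ⟨a, ha⟩ := hg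
  -- the determinant of a small matrix
  have hdet : ∀ (k : ℕ) (b : Matrix (Fin n) (Fin n) ℤ_[p]), ∃ e : ℤ_[p],
      (1 + (p : ℤ_[p]) ^ k • b).det = 1 + (p : ℤ_[p]) ^ k * (b.trace + (p : ℤ_[p]) ^ k * e) := by
    intro k b
    refine ⟨Polynomial.eval ((p : ℤ_[p]) ^ k) (1 + (Polynomial.X : Polynomial ℤ_[p]) •
      b.map Polynomial.C).det.divX.divX, (Matrix.det_one_add_smul ((p : ℤ_[p]) ^ k) b).trans ?_⟩
    ring
  have hcast : ∀ A : Matrix (Fin n) (Fin n) ℤ_[p], (toQ A).det = ((A.det : ℤ_[p]) : ℚ_[p]) := by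
    intro A
    exact (RingHom.map_det (algebraMap ℤ_[p] ℚ_[p]) A).symm
  obtain ⟨e, he⟩ := hdet 2 a
  refine eq_one_of_log (c := a.trace + (p : ℤ_[p]) ^ 2 * e) ?_ ?_
  · rw [rat_apply, hcast, ha, he]
    push_cast
    ring
  · obtain ⟨y, -, hy⟩ := TF.exists_log a 2 le_rfl
    rw [← ha] at hy
    obtain ⟨x, hx, hl⟩ := hy
    have h2 : ∀ m, TF.rat ρ (g ^ (p ^ m)) = 1 + ((p : ℚ_[p]) ^ m) • toQ (x m) := by
      intro m
      rw [rat_apply, map_pow, Units.val_pow_eq_pow_val, hx, map_add, map_one, toQ_smul, map_pow]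
      simp
    have h3 : Tendsto (fun m => toQ (x m)) atTop (𝓝 L) := by
      refine hL.congr fun m => ?_
      rw [h2, add_sub_cancel_left, smul_smul, inv_mul_cancel₀ (pow_ne_zero _ ell_ne), one_smul]
    have h4 : Tendsto (fun m => (toQ (x m)).trace) atTop (𝓝 0) := by
      have hc : Continuous fun X : Matrix (Fin n) (Fin n) ℚ_[p] => X.trace := continuous_id.matrix_trace
      have := (hc.tendsto L).comp h3
      rwa [ht] at this
    choose e' he' using fun m => hdet m (x m)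
    have h5 : Tendsto (fun m : ℕ => (p : ℚ_[p]) ^ m * (e' m : ℚ_[p])) atTop (𝓝 0) := by
      have hp1 : (1 : ℝ) < p := by exact_mod_cast (Fact.out : p.Prime).one_lt
      refine squeeze_zero_norm (a := fun m => ((p : ℝ)⁻¹) ^ m) (fun m => ?_)
        (tendsto_pow_atTop_nhds_zero_of_lt_one (by positivity) (inv_lt_one_of_one_lt₀ hp1))
      rw [norm_mul, norm_pow, Padic.norm_p]
      exact mul_le_of_le_one_right (by positivity) (PadicInt.norm_le_one _)
    have h6 := h4.add h5
    rw [add_zero] at h6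
    refine h6.congr fun m => ?_
    have h7 : (TF.rat ρ g).det ^ (p ^ m) =
        1 + (p : ℚ_[p]) ^ m * ((toQ (x m)).trace + (p : ℚ_[p]) ^ m * (e' m : ℚ_[p])) := by
      have e1 : (TF.rat ρ g).det ^ (p ^ m) = (toQ (1 + (p : ℤ_[p]) ^ m • x m)).det := by
        rw [← Matrix.det_pow, ← map_pow, h2, map_add toQ, map_one toQ, toQ_smul, map_pow]
        simp
      have e2 : (toQ (x m)).trace = (((x m).trace : ℤ_[p]) : ℚ_[p]) :=
        (AddMonoidHom.map_trace (algebraMap ℤ_[p] ℚ_[p]).toAddMonoidHom (x m)).symm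
      rw [e1, hcast, he', e2]
      push_cast
      ring
    rw [h7, add_sub_cancel_left, ← mul_assoc, inv_mul_cancel₀ (pow_ne_zero _ ell_ne), one_mul]

end Pool.Agent.H850.LA
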