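import Pool.Agent.H850.LA.Ad
import Pool.Agent.H850.MT.Zar

/-!
# The Lie algebra of the group generated by two Zariski dense elements
-/

set_option autoImplicit false
set_option linter.unusedSectionVars false

open Matrix Filter Topology

namespace Pool.Agent.H850.LA

open Pool.Agent.H850.TF Pool.Agent.H850.MT2

variable {p : ℕ} [Fact p.Prime] {n : ℕ} {Γ : Type} [Group Γ]

/-- the Lie algebra of (the closure of) the image of the subgroup `H` -/
noncomputable def tanH (ρ : Γ →* GL (Fin n) ℤ_[p]) (H : Subgroup Γ) :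
    Submodule ℚ_[p] (Matrix (Fin n) (Fin n) ℚ_[p]) :=
  LA.tan ((TF.rat ρ).comp H.subtype)

variable (ρ : Γ →* GL (Fin n) ℤ_[p])

theorem mem_tanH (H : Subgroup Γ) (X : Matrix (Fin n) (Fin n) ℚ_[p]) :
    X ∈ tanH ρ H ↔ ∃ σ : ℕ → Γ, (∀ m, σ m ∈ H) ∧
      Tendsto (fun m : ℕ => ((p : ℚ_[p]) ^ m)⁻¹ • (TF.rat ρ (σ m) - 1)) atTop (𝓝 X) := by
  constructor
  · rintro ⟨σ, hσ⟩
    exact ⟨fun m => σ m, fun m => (σ m).2, hσ⟩
  · rintro ⟨σ, hσ, h⟩
    exact ⟨fun m => ⟨σ m, hσ m⟩, h⟩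

theorem tanH_mono {H H' : Subgroup Γ} (h : H ≤ H') : tanH ρ H ≤ tanH ρ H' := by
  intro X hX
  rw [mem_tanH] at hX ⊢
  obtain ⟨σ, hσ, hl⟩ := hX
  exact ⟨σ, fun m => h (hσ m), hl⟩

theorem isClosed_tanH (H : Subgroup Γ) :
    IsClosed (tanH ρ H : Set (Matrix (Fin n) (Fin n) ℚ_[p])) :=
  isClosed_tangent _

theorem rat_mul_inv (g : Γ) : TF.rat ρ g * TF.rat ρ g⁻¹ = 1 := by
  rw [← map_mul, mul_inv_cancel, map_one]

theorem rat_inv_mul (g : Γ) : TF.rat ρ g⁻¹ * TF.rat ρ g = 1 := by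
  rw [← map_mul, inv_mul_cancel, map_one]

/-- the logarithm of a small element -/
theorem exists_log_tan {σ : Γ} (hσ : σ ∈ U1 ρ) : ∃ L : Matrix (Fin n) (Fin n) ℚ_[p],
    Tendsto (fun m : ℕ => ((p : ℚ_[p]) ^ m)⁻¹ • (TF.rat ρ (σ ^ (p ^ m)) - 1)) atTop (𝓝 L) := by
  obtain ⟨a, ha⟩ := hσ
  obtain ⟨y, -, hy⟩ := TF.exists_log a 2 le_rfl
  rw [← ha] at hy
  obtain ⟨x, hx, hl⟩ := hy
  refine ⟨toQ _, ((continuous_toQ.tendsto _).comp hl).congr fun m => ?_⟩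
  have h1 : TF.rat ρ (σ ^ (p ^ m)) = 1 + ((p : ℚ_[p]) ^ m) • toQ (x m) := by
    rw [rat_apply, map_pow, Units.val_pow_eq_pow_val, hx, map_add, map_one, toQ_smul, map_pow]
    simp
  rw [h1, add_sub_cancel_left, smul_smul, inv_mul_cancel₀ (pow_ne_zero _ ell_ne), one_smul]
  rfl

/-- differentiating the adjoint action -/
theorem bracket_lim {τ : ℕ → Γ} {L : Matrix (Fin n) (Fin n) ℚ_[p]}
    (h : Tendsto (fun m : ℕ => ((p : ℚ_[p]) ^ m)⁻¹ • (TF.rat ρ (τ m) - 1)) atTop (𝓝 L))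
    (Y : Matrix (Fin n) (Fin n) ℚ_[p]) :
    Tendsto (fun m : ℕ => ((p : ℚ_[p]) ^ m)⁻¹ •
      (TF.rat ρ (τ m) * Y * TF.rat ρ (τ m)⁻¹ - Y)) atTop (𝓝 (L * Y - Y * L)) := by
  have hρ := rho_inv_tendsto (TF.rat ρ) (rho_tendsto (TF.rat ρ) h)
  have h1 : Tendsto (fun m => (((p : ℚ_[p]) ^ m)⁻¹ • (TF.rat ρ (τ m) - 1)) * Y *
      TF.rat ρ (τ m)⁻¹ - Y * ((((p : ℚ_[p]) ^ m)⁻¹ • (TF.rat ρ (τ m) - 1)) *
      TF.rat ρ (τ m)⁻¹)) atTop (𝓝 (L * Y * 1 - Y * (L * 1))) :=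
    ((Tendsto.mul h tendsto_const_nhds).mul hρ).sub (tendsto_const_nhds.mul (Tendsto.mul h hρ))
  rw [mul_one, mul_one] at h1
  refine h1.congr fun m => ?_
  rw [smul_mul_assoc, smul_mul_assoc, smul_mul_assoc, mul_smul_comm, ← smul_sub]
  congr 1
  have h5 : (TF.rat ρ (τ m) - 1) * TF.rat ρ (τ m)⁻¹ = 1 - TF.rat ρ (τ m)⁻¹ := by
    rw [sub_mul, rat_mul_inv, one_mul]
  rw [h5]
  noncomm_ring

/-- polynomial conditions on conjugates -/
theorem poly_adj {x y : Γ} (h : ZD ρ x y) (W : Submodule ℚ_[p] (Matrix (Fin n) (Fin n) ℚ_[p]))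
    (Y Z : Matrix (Fin n) (Fin n) ℚ_[p])
    (hW : ∀ g ∈ Subgroup.closure {x, y}, TF.rat ρ g * Y * TF.rat ρ g⁻¹ - Z ∈ W) (u : Γ) :
    TF.rat ρ u * Y * TF.rat ρ u⁻¹ - Z ∈ W := by
  classical
  by_contra hu
  obtain ⟨lam, hlam, hle⟩ := Submodule.exists_le_ker_of_notMem hu
  set X : Matrix (Fin n) (Fin n) (MvPolynomial (Fin n × Fin n) ℚ_[p]) :=
    Matrix.mvPolynomialX (Fin n) (Fin n) ℚ_[p] with hX
  set M : Matrix (Fin n) (Fin n) (MvPolynomial (Fin n × Fin n) ℚ_[p]) :=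
    X * Y.map MvPolynomial.C * X.adjugate - X.det • Z.map MvPolynomial.C with hM
  set P : MvPolynomial (Fin n × Fin n) ℚ_[p] :=
    ∑ i, ∑ j, M i j * MvPolynomial.C (lam (Matrix.single i j 1)) with hP
  have key : ∀ g, MvPolynomial.eval (fun q : Fin n × Fin n => TF.rat ρ g q.1 q.2) P =
      (TF.rat ρ g).det * lam (TF.rat ρ g * Y * TF.rat ρ g⁻¹ - Z) := by
    intro g
    set φ : MvPolynomial (Fin n × Fin n) ℚ_[p] →+* ℚ_[p] :=
      MvPolynomial.eval (fun q : Fin n × Fin n => TF.rat ρ g q.1 q.2) with hφ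
    have e0 : ∀ A : Matrix (Fin n) (Fin n) ℚ_[p],
        (A.map (MvPolynomial.C (σ := Fin n × Fin n))).map φ = A := by
      intro A
      ext i j
      rw [Matrix.map_apply, Matrix.map_apply, hφ, MvPolynomial.eval_C]
    have e1 : X.map φ = TF.rat ρ g := by
      ext i j
      rw [Matrix.map_apply, hX, Matrix.mvPolynomialX_apply, hφ, MvPolynomial.eval_X]
    have e2 : X.adjugate.map φ = (TF.rat ρ g).adjugate := by
      rw [← e1]
      exact (RingHom.map_adjugate φ X)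
    have e3 : φ X.det = (TF.rat ρ g).det := by
      rw [← e1]
      exact RingHom.map_det φ X
    have e4 : M.map φ = TF.rat ρ g * Y * (TF.rat ρ g).adjugate - (TF.rat ρ g).det • Z := by
      have e5 : (X.det • Z.map MvPolynomial.C).map φ = (TF.rat ρ g).det • Z := by
        ext i j
        rw [Matrix.map_apply, Matrix.smul_apply, Matrix.smul_apply, smul_eq_mul, smul_eq_mul,
          map_mul, e3, Matrix.map_apply, hφ, MvPolynomial.eval_C]
      rw [hM, Matrix.map_sub φ (fun a b => map_sub φ a b), e5, Matrix.map_mul, Matrix.map_mul, e0, e1,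
        e2]
    have hdet : (TF.rat ρ g).adjugate = (TF.rat ρ g).det • TF.rat ρ g⁻¹ := by
      have h1 : TF.rat ρ g⁻¹ * (TF.rat ρ g * (TF.rat ρ g).adjugate) =
          TF.rat ρ g⁻¹ * ((TF.rat ρ g).det • 1) := by rw [Matrix.mul_adjugate]
      rw [← mul_assoc, rat_inv_mul, one_mul, mul_smul_comm, mul_one] at h1
      exact h1
    have e6 : M.map φ = (TF.rat ρ g).det • (TF.rat ρ g * Y * TF.rat ρ g⁻¹ - Z) := by
      rw [e4, hdet, mul_smul_comm, smul_sub]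
    have e7 : φ P = lam (M.map φ) := by
      conv_rhs => rw [Matrix.matrix_eq_sum_single (M.map φ)]
      rw [hP, map_sum, map_sum]
      refine Finset.sum_congr rfl fun i _ => ?_
      rw [map_sum, map_sum]
      refine Finset.sum_congr rfl fun j _ => ?_
      rw [map_mul]
      have e8 : Matrix.single i j ((M.map φ) i j) = ((M.map φ) i j) • Matrix.single i j (1 : ℚ_[p]) := by
        rw [Matrix.smul_single, smul_eq_mul, mul_one]
      rw [e8, map_smul, smul_eq_mul, Matrix.map_apply]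
      congr 1
      rw [hφ, MvPolynomial.eval_C]
    rw [e7, e6, map_smul, smul_eq_mul]
  have h1 := h P (fun g hg => by
    rw [key]
    have h2 : lam (TF.rat ρ g * Y * TF.rat ρ g⁻¹ - Z) = 0 := hle (hW g hg)
    rw [h2, mul_zero]) u
  rw [key] at h1
  have hdet0 : (TF.rat ρ u).det ≠ 0 := by
    intro h0
    have h3 : (TF.rat ρ u).det * (TF.rat ρ u⁻¹).det = 1 := by
      rw [← Matrix.det_mul, rat_mul_inv, Matrix.det_one]
    rw [h0, zero_mul] at h3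
    exact zero_ne_one h3
  exact (mul_ne_zero hdet0 hlam) h1

end Pool.Agent.H850.LA
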