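import Pool.Agent.H850.LA.Rnd
import Pool.Agent.H850.RG.Ae
import Pool.Agent.H850.RG.Conj

/-!
# Normal subgroups: the Lie algebra
-/

set_option autoImplicit false
set_option linter.unusedSectionVars false

open Matrix Filter Topology MeasureTheory TensorProduct

namespace Pool.Agent.H850.LA

open Pool.Agent.H850.TF Pool.Agent.H850.RG Pool.Agent.H850.MT2

variable {p : ℕ} [Fact p.Prime] {n : ℕ} {Γ : Type} [Group Γ]

section dualss

variable {ρ : Γ →* GL (Fin n) ℤ_[p]}

theorem transpose_mem {x : Matrix (Fin n) (Fin n) ℚ_[p]}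
    (hx : x ∈ Algebra.adjoin ℚ_[p] (Set.range (TF.rat (dual ρ)))) :
    xᵀ ∈ Algebra.adjoin ℚ_[p] (Set.range (TF.rat ρ)) := by
  induction hx using Algebra.adjoin_induction with
  | mem x hx =>
    obtain ⟨σ, rfl⟩ := hx
    rw [rat_dual, transpose_transpose]
    exact Algebra.subset_adjoin ⟨σ⁻¹, rfl⟩
  | algebraMap c =>
    have h1 : (algebraMap ℚ_[p] (Matrix (Fin n) (Fin n) ℚ_[p]) c)ᵀ =
        algebraMap ℚ_[p] (Matrix (Fin n) (Fin n) ℚ_[p]) c := by
      rw [Matrix.algebraMap_eq_diagonal, diagonal_transpose]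
    rw [h1]
    exact Subalgebra.algebraMap_mem _ c
  | add a b _ _ ha hb => rw [transpose_add]; exact Subalgebra.add_mem _ ha hb
  | mul a b _ _ ha hb => rw [transpose_mul]; exact Subalgebra.mul_mem _ hb ha

theorem transpose_mem' {x : Matrix (Fin n) (Fin n) ℚ_[p]}
    (hx : x ∈ Algebra.adjoin ℚ_[p] (Set.range (TF.rat ρ))) :
    xᵀ ∈ Algebra.adjoin ℚ_[p] (Set.range (TF.rat (dual ρ))) := by
  induction hx using Algebra.adjoin_induction with
  | mem x hx =>
    obtain ⟨σ, rfl⟩ := hx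
    refine Algebra.subset_adjoin ⟨σ⁻¹, ?_⟩
    rw [rat_dual, inv_inv]
  | algebraMap c =>
    have h1 : (algebraMap ℚ_[p] (Matrix (Fin n) (Fin n) ℚ_[p]) c)ᵀ =
        algebraMap ℚ_[p] (Matrix (Fin n) (Fin n) ℚ_[p]) c := by
      rw [Matrix.algebraMap_eq_diagonal, diagonal_transpose]
    rw [h1]
    exact Subalgebra.algebraMap_mem _ c
  | add a b _ _ ha hb => rw [transpose_add]; exact Subalgebra.add_mem _ ha hb
  | mul a b _ _ ha hb => rw [transpose_mul]; exact Subalgebra.mul_mem _ hb ha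

/-- the contragredient of a semisimple representation is semisimple -/
theorem CR_dual_of_CR (h : CR (Set.range (TF.rat ρ))) : CR (Set.range (TF.rat (dual ρ))) := by
  have hnd := nondeg_of_CR h
  have hnd' : Nondeg (Algebra.adjoin ℚ_[p] (Set.range (TF.rat (dual ρ)))) := by
    intro a ha h1
    have h2 := hnd aᵀ (transpose_mem ha) fun c hc => by
      have h3 := h1 cᵀ (transpose_mem' hc)
      rw [← trace_transpose, transpose_mul, transpose_transpose] at h3
      rw [← h3, trace_mul_comm]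
    rw [← transpose_transpose a, h2, transpose_zero]
  have hss := CR_of_semisimple _ (semisimple_of_nondeg _ hnd')
  intro W hW
  obtain ⟨W', hW', hc⟩ := hss W (stable_adjoin hW)
  exact ⟨W', fun A hA => hW' A (Algebra.subset_adjoin hA), hc⟩

end dualss

/-- the isomorphism of the tensor product with the space of matrices -/
noncomputable def biso (K : Type) [Field K] (n : ℕ) :
    (Fin n → K) ⊗[K] (Fin n → K) ≃ₗ[K] Matrix (Fin n) (Fin n) K :=
  ((Pi.basisFun K (Fin n)).tensorProduct (Pi.basisFun K (Fin n))).equiv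
    (Matrix.stdBasis K (Fin n) (Fin n)) (Equiv.refl _)

theorem biso_apply (K : Type) [Field K] (n : ℕ) (v w : Fin n → K) :
    biso K n (v ⊗ₜ w) = vecMulVec v w := by
  classical
  have h1 : biso K n = (biso K n : (Fin n → K) ⊗[K] (Fin n → K) →ₗ[K] Matrix (Fin n) (Fin n) K) := rfl
  have h2 : (biso K n : (Fin n → K) ⊗[K] (Fin n → K) →ₗ[K] Matrix (Fin n) (Fin n) K) =
      TensorProduct.lift (LinearMap.mk₂ K (fun v w : Fin n → K => vecMulVec v w)
        (fun a b c => by ext i j; simp only [vecMulVec_apply, Pi.add_apply, Matrix.add_apply]; ring)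
        (fun c a b => by
          ext i j; simp only [vecMulVec_apply, Pi.smul_apply, Matrix.smul_apply, smul_eq_mul]; ring)
        (fun a b c => by ext i j; simp only [vecMulVec_apply, Pi.add_apply, Matrix.add_apply]; ring)
        (fun c a b => by
          ext i j; simp only [vecMulVec_apply, Pi.smul_apply, Matrix.smul_apply, smul_eq_mul]; ring)) := by
    refine ((Pi.basisFun K (Fin n)).tensorProduct (Pi.basisFun K (Fin n))).ext fun ij => ?_
    obtain ⟨i, j⟩ := ij
    have h3 : (biso K n : (Fin n → K) ⊗[K] (Fin n → K) →ₗ[K] Matrix (Fin n) (Fin n) K)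
        (((Pi.basisFun K (Fin n)).tensorProduct (Pi.basisFun K (Fin n))) (i, j)) =
          Matrix.stdBasis K (Fin n) (Fin n) (i, j) := by
      unfold biso
      exact Module.Basis.equiv_apply _ _ _ _
    rw [h3, Module.Basis.tensorProduct_apply, TensorProduct.lift.tmul, LinearMap.mk₂_apply,
      Matrix.stdBasis_eq_single]
    ext a b
    rw [vecMulVec_apply, Pi.basisFun_apply, Pi.basisFun_apply, Pi.single_apply, Pi.single_apply,
      Matrix.single_apply]
    by_cases h4 : a = i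
    · by_cases h5 : b = j
      · simp [h4, h5]
      · have h5' : ¬ j = b := fun h => h5 h.symm
        simp [h5, h5']
    · have h4' : ¬ i = a := fun h => h4 h.symm
      simp [h4, h4']
  change (biso K n : (Fin n → K) ⊗[K] (Fin n → K) →ₗ[K] Matrix (Fin n) (Fin n) K) (v ⊗ₜ w) = _
  rw [h2, TensorProduct.lift.tmul, LinearMap.mk₂_apply]

theorem biso_conj (ρ : Γ →* GL (Fin n) ℤ_[p]) (γ : Γ) (v w : Fin n → ℚ_[p]) :
    biso ℚ_[p] n (((TF.rat ρ γ).mulVec v) ⊗ₜ ((TF.rat (dual ρ) γ).mulVec w)) =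
      cj ρ γ (biso ℚ_[p] n (v ⊗ₜ w)) := by
  rw [biso_apply, biso_apply, cj_apply, rat_dual, mulVec_transpose, mul_vecMulVec, vecMulVec_mul]

variable [TopologicalSpace Γ] [IsTopologicalGroup Γ] [CompactSpace Γ]

/-- **The adjoint representation of a semisimple representation is semisimple.** -/
theorem SS_cj {ρ : Γ →* GL (Fin n) ℤ_[p]}
    (hρ : Continuous fun σ => (ρ σ : Matrix (Fin n) (Fin n) ℤ_[p]))
    (h : CR (Set.range (TF.rat ρ))) : SS (cj ρ) Set.univ := by
  rcases Nat.eq_zero_or_pos n with rfl | hn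
  · intro W _
    obtain ⟨W', hc⟩ := Submodule.exists_isCompl W
    refine ⟨W', fun s _ x hx => ?_, hc⟩
    have h1 : cj ρ s x = x := by
      ext i
      exact i.elim0
    rwa [h1]
  · have hne : Nonempty (Fin n) := ⟨⟨0, hn⟩⟩
    have hc0 : Continuous fun σ => TF.rat ρ σ := continuous_toQ.comp hρ
    let C : Pool.Agent.W5h2.SL.GRep p Γ :=
      { V := Matrix (Fin n) (Fin n) ℚ_[p]
        r := cj ρ
        cts := by
          intro v φ
          have h1 : Continuous fun σ : Γ => cj ρ σ v := by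
            have h2 : (fun σ : Γ => cj ρ σ v) = fun σ => TF.rat ρ σ * v * TF.rat ρ σ⁻¹ := by
              funext σ
              exact cj_apply ρ σ v
            rw [h2]
            exact (hc0.matrix_mul continuous_const).matrix_mul (hc0.comp continuous_inv)
          exact (LinearMap.continuous_of_finiteDimensional φ).comp h1 }
    have h3 : C.SS ⊥ ⊤ := by
      refine Pool.Agent.W5h2.SL.semi_prod (grep ρ hρ) (grep (dual ρ) (continuous_dual hρ)) C
        (biso ℚ_[p] n) ?_ (ss_of_CR hρ h) (ss_of_CR (continuous_dual hρ) (CR_dual_of_CR h)) (by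
          change Nontrivial (Fin n → ℚ_[p])
          infer_instance)
      exact fun γ v w => biso_conj ρ γ v w
    intro W hW
    obtain ⟨U', hU', -, -, h1, h2⟩ := h3.2.2.2 W (fun γ u hu => hW γ trivial u hu) bot_le le_top
    exact ⟨U', fun s _ x hx => hU' s x hx, isCompl_iff.2 ⟨disjoint_iff.2 h1, codisjoint_iff.2 h2⟩⟩

/-- **The Lie algebra of a normal subgroup with small centralizer contains the derived algebra.** -/
theorem normal_brackets {ρ : Γ →* GL (Fin n) ℤ_[p]}
    (hρ : Continuous fun σ => (ρ σ : Matrix (Fin n) (Fin n) ℤ_[p]))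
    (h : CR (Set.range (TF.rat ρ))) {H : Subgroup Γ} (hH : H.Normal)
    (hfix : ∀ x : Matrix (Fin n) (Fin n) ℚ_[p], (∀ t ∈ H, t ∈ U1 ρ → cj ρ t x = x) →
      ∀ u ∈ U1 ρ, cj ρ u x = x)
    {X Y : Matrix (Fin n) (Fin n) ℚ_[p]} (hX : X ∈ tanH ρ ⊤) (hY : Y ∈ tanH ρ ⊤) :
    X * Y - Y * X ∈ tanH ρ H := by
  -- stability
  have hst : ∀ u : Γ, ∀ Z ∈ tanH ρ H, TF.rat ρ u * Z * TF.rat ρ u⁻¹ ∈ tanH ρ H := by
    intro u Z hZ
    rw [mem_tanH] at hZ ⊢
    obtain ⟨σ, hσ, hl⟩ := hZ
    refine ⟨fun m => u * σ m * u⁻¹, fun m => hH.conj_mem _ (hσ m) u, ?_⟩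
    have h1 := ((tendsto_const_nhds (x := TF.rat ρ u)).mul hl).mul
      (tendsto_const_nhds (x := TF.rat ρ u⁻¹))
    refine h1.congr fun m => ?_
    rw [mul_smul_comm, smul_mul_assoc, mul_sub, sub_mul, mul_one, rat_mul_inv, map_mul, map_mul]
  have hideal : ∀ Z ∈ tanH ρ (⊤ : Subgroup Γ), ∀ Z' ∈ tanH ρ H, Z * Z' - Z' * Z ∈ tanH ρ H := by
    intro Z hZt Z' hZ'
    exact bracket_mem ρ (tanH ρ H) (isClosed_tanH ρ H) hZt fun g _ =>
      (tanH ρ H).sub_mem (hst g Z' hZ') hZ'
  -- the small elements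
  have hsmall : ∀ z ∈ H, z ∈ U1 ρ → ∀ Z ∈ tanH ρ (⊤ : Subgroup Γ),
      TF.rat ρ z * Z * TF.rat ρ z⁻¹ - Z ∈ tanH ρ H := by
    intro z hz hzU Z hZt
    obtain ⟨L, hL⟩ := exists_log_tan ρ hzU
    have hLH : L ∈ tanH ρ H := by
      rw [mem_tanH]
      exact ⟨fun j => z ^ (p ^ j), fun j => H.pow_mem hz _, hL⟩
    refine small_trivial ρ hzU hL (tanH ρ ⊤) (tanH ρ H)
      (fun X hX => tanH_conj ρ (Subgroup.mem_top _) hX) (fun X hX => ?_) hZt
    have h2 := (tanH ρ H).neg_mem (hideal X hX L hLH)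
    rwa [neg_sub] at h2
  obtain ⟨C, hC, hcompl⟩ := SS_cj hρ h (tanH ρ H) fun s _ x hx => by
    rw [cj_apply]
    exact hst s x hx
  have hYs : Y ∈ tanH ρ H ⊔ C := by rw [hcompl.sup_eq_top]; trivial
  obtain ⟨a, ha, c, hc, rfl⟩ := Submodule.mem_sup.1 hYs
  have hle : tanH ρ H ≤ tanH ρ (⊤ : Subgroup Γ) := tanH_mono ρ le_top
  have hct : c ∈ tanH ρ (⊤ : Subgroup Γ) := by
    have h1 := (tanH ρ (⊤ : Subgroup Γ)).sub_mem hY (hle ha)
    rwa [add_sub_cancel_left] at h1
  have hcfix : ∀ u ∈ U1 ρ, cj ρ u c = c := by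
    refine hfix c fun t ht htU => ?_
    have h1 := hsmall t ht htU c hct
    rw [← cj_apply] at h1
    have h2 : cj ρ t c - c ∈ C := C.sub_mem (hC t trivial c hc) hc
    exact sub_eq_zero.1 ((Submodule.disjoint_def.1 hcompl.disjoint) _ h1 h2)
  have hXc : X * c - c * X = 0 := by
    have h1 : X ∈ tanH ρ (U1 ρ) := tanH_open ρ (isOpen_U1 ρ hρ) hX
    have h2 := bracket_mem ρ (⊥ : Submodule ℚ_[p] (Matrix (Fin n) (Fin n) ℚ_[p]))
      (Submodule.closed_of_finiteDimensional _) (Y := c) h1 fun g hg => by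
        rw [← cj_apply, hcfix g hg, sub_self]
        exact Submodule.zero_mem _
    exact h2
  have h5 : X * (a + c) - (a + c) * X = (X * a - a * X) + (X * c - c * X) := by
    rw [mul_add, add_mul]
    abel
  rw [h5, hXc, add_zero]
  exact hideal X hX a ha

variable [MeasurableSpace Γ] [BorelSpace Γ]

/-- **Almost every element: the Lie algebra of its normal closure contains the derived algebra.** -/
theorem cn_brackets (μ : Measure Γ) [μ.IsHaarMeasure] {ρ : Γ →* GL (Fin n) ℤ_[p]}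
    (hρ : Continuous fun σ => (ρ σ : Matrix (Fin n) (Fin n) ℤ_[p])) :
    CN μ fun σ => CR (Set.range (TF.rat ρ)) → ∀ X ∈ tanH ρ (⊤ : Subgroup Γ),
      ∀ Y ∈ tanH ρ (⊤ : Subgroup Γ), X * Y - Y * X ∈ tanH ρ (Subgroup.normalClosure {σ}) := by
  by_cases hss : CR (Set.range (TF.rat ρ))
  · refine (cn_main μ hρ (cj ρ) (Rep.conj hss).coef).mono fun σ hσ _ X hX Y hY => ?_
    exact normal_brackets hρ hss Subgroup.normalClosure_normal
      (fun x hx => hσ.2 (SS_cj hρ hss) (U1 ρ) (isOpen_U1 ρ hρ) x fun t ht htU => hx t ht htU)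
      hX hY
  · exact CN.of_forall fun σ h => absurd h hss

end Pool.Agent.H850.LA
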