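import Pool.Agent.H850.LA.Der

/-!
# A subgroup with the full Lie algebra is open
-/

set_option autoImplicit false
set_option linter.unusedSectionVars false

open Matrix Filter Topology

namespace Pool.Agent.H850.LA

open Pool.Agent.H850.TF Pool.Agent.H850.MT2

variable {p : ℕ} [Fact p.Prime] {n : ℕ} {Γ : Type} [Group Γ] (ρ : Γ →* GL (Fin n) ℤ_[p])

/-- `σ` acts trivially modulo `p ^ m` -/
def Lev (m : ℕ) (σ : Γ) : Prop :=
  ∃ a : Matrix (Fin n) (Fin n) ℤ_[p],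
    (ρ σ : Matrix (Fin n) (Fin n) ℤ_[p]) = 1 + (p : ℤ_[p]) ^ m • a

/-- eventually a convergent sequence of integral matrices is congruent to its limit -/
theorem eventually_congr {f : ℕ → Matrix (Fin n) (Fin n) ℚ_[p]} {A : Matrix (Fin n) (Fin n) ℤ_[p]}
    (h : Tendsto f atTop (𝓝 (toQ A))) :
    ∀ᶠ k in atTop, ∃ b : Matrix (Fin n) (Fin n) ℤ_[p], f k = toQ (A + (p : ℤ_[p]) • b) := by
  have h1 : ∀ i j, ∀ᶠ k in atTop, ‖f k i j - toQ A i j‖ < 1 := by
    intro i j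
    have hc : Continuous fun X : Matrix (Fin n) (Fin n) ℚ_[p] => X i j :=
      (continuous_apply j).comp (continuous_apply i)
    have h2 := (hc.tendsto (toQ A)).comp h
    have h3 := Metric.tendsto_nhds.1 h2 1 zero_lt_one
    filter_upwards [h3] with k hk
    rwa [dist_eq_norm] at hk
  have h2 : ∀ᶠ k in atTop, ∀ i j, ‖f k i j - toQ A i j‖ < 1 := by
    rw [eventually_all]
    intro i
    rw [eventually_all]
    intro j
    exact h1 i j
  filter_upwards [h2] with k hk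
  have h4 : ∀ i j, ∃ b : ℤ_[p], f k i j - toQ A i j = ((p : ℤ_[p]) * b : ℤ_[p]) := by
    intro i j
    let z : ℤ_[p] := ⟨f k i j - toQ A i j, (hk i j).le⟩
    have h5 : ‖z‖ < 1 := hk i j
    obtain ⟨b, hb⟩ := (PadicInt.norm_lt_one_iff_dvd z).1 h5
    exact ⟨b, by rw [← hb]⟩
  choose b hb using h4
  refine ⟨Matrix.of b, ?_⟩
  ext i j
  have h5 := hb i j
  rw [sub_eq_iff_eq_add] at h5
  rw [h5, map_add, Matrix.add_apply, add_comm]
  rfl

theorem compact_int : CompactSpace (Matrix (Fin n) (Fin n) ℤ_[p]) :=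
  inferInstanceAs (CompactSpace (Fin n → Fin n → ℤ_[p]))

/-- **A subgroup whose Lie algebra is the whole Lie algebra is open.** -/
theorem open_of_tan {H : Subgroup Γ} (hT : tanH ρ ⊤ ≤ tanH ρ H) :
    ∃ m : ℕ, ∀ σ, Lev ρ m σ → TF.rat ρ σ ∈ closure (TF.rat ρ '' (H : Set Γ)) := by
  by_contra hcon
  push Not at hcon
  -- best approximations
  have h1 : ∀ m : ℕ, ∃ (τ : Γ) (N : ℕ), m ≤ N ∧ Lev ρ N τ ∧ ∀ h ∈ H, ¬ Lev ρ (N + 1) (τ * h) := by
    intro m
    obtain ⟨σ, hσ, hσH⟩ := hcon m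
    by_contra hne
    push Not at hne
    apply hσH
    have h2 : ∀ k : ℕ, ∃ h ∈ H, Lev ρ (m + k) (σ * h) := by
      intro k
      induction k with
      | zero => exact ⟨1, H.one_mem, by rwa [mul_one, add_zero]⟩
      | succ k ih =>
        obtain ⟨h, hh, hl⟩ := ih
        obtain ⟨h', hh', hl'⟩ := hne (σ * h) (m + k) (by omega) hl
        exact ⟨h * h', H.mul_mem hh hh', by rwa [← mul_assoc]⟩
    choose h hh hl using h2
    choose a ha using hl
    have h3 : ∀ k, TF.rat ρ (h k)⁻¹ = TF.rat ρ σ -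
        toQ ((p : ℤ_[p]) ^ k • ((p : ℤ_[p]) ^ m • (a k *
          ((ρ (h k)⁻¹ : GL (Fin n) ℤ_[p]) : Matrix (Fin n) (Fin n) ℤ_[p])))) := by
      intro k
      have e1 : (ρ σ : Matrix (Fin n) (Fin n) ℤ_[p]) =
          (ρ (σ * h k) : Matrix (Fin n) (Fin n) ℤ_[p]) *
            ((ρ (h k)⁻¹ : GL (Fin n) ℤ_[p]) : Matrix (Fin n) (Fin n) ℤ_[p]) := by
        rw [← Units.val_mul, ← map_mul, mul_inv_cancel_right]
      rw [ha k, add_mul, one_mul, smul_mul_assoc, pow_add, mul_comm ((p : ℤ_[p]) ^ m), ← smul_smul]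
        at e1
      rw [rat_apply ρ σ, e1, map_add, add_sub_cancel_right]
      rfl
    have h4 : Tendsto (fun k => TF.rat ρ (h k)⁻¹) atTop (𝓝 (TF.rat ρ σ)) := by
      have e2 := (continuous_toQ.tendsto _).comp (tendsto_p_smul fun k => (p : ℤ_[p]) ^ m • (a k *
          ((ρ (h k)⁻¹ : GL (Fin n) ℤ_[p]) : Matrix (Fin n) (Fin n) ℤ_[p])))
      rw [map_zero] at e2
      have e3 := (tendsto_const_nhds (x := TF.rat ρ σ)).sub e2
      rw [sub_zero] at e3
      refine e3.congr fun k => ?_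
      rw [h3 k]
      rfl
    exact mem_closure_of_tendsto h4 (Eventually.of_forall fun k =>
      ⟨(h k)⁻¹, H.inv_mem (hh k), rfl⟩)
  choose τ N hN hτ hbest using h1
  choose a ha using hτ
  have := compact_int (p := p) (n := n)
  have hfc : FirstCountableTopology (Matrix (Fin n) (Fin n) ℤ_[p]) :=
    inferInstanceAs (FirstCountableTopology (Fin n → Fin n → ℤ_[p]))
  obtain ⟨A, φ, hφ, hA⟩ := CompactSpace.tendsto_subseq a
  have hφj : ∀ j, j ≤ N (φ j) := fun j => (hφ.le_apply).trans (hN _)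
  have hNt : Tendsto (fun j => N (φ j)) atTop atTop := tendsto_atTop_mono hφj tendsto_id
  -- the limit is tangent
  have hAt : toQ A ∈ tanH ρ (⊤ : Subgroup Γ) := by
    have h2 : ∀ j : ℕ, ∃ y : Matrix (Fin n) (Fin n) ℤ_[p],
        toQ (a (φ (j + 2)) + (p : ℤ_[p]) ^ (N (φ (j + 2)) - 1) • y) ∈ tanH ρ (⊤ : Subgroup Γ) := by
      intro j
      have hN2 : 2 ≤ N (φ (j + 2)) := by
        have := hφj (j + 2)
        omega
      obtain ⟨y, -, hy⟩ := TF.exists_log (a (φ (j + 2))) (N (φ (j + 2))) hN2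
      refine ⟨y, ?_⟩
      rw [← ha] at hy
      obtain ⟨x, hx, hl⟩ := hy
      have h3 : toQ ((p : ℤ_[p]) ^ (N (φ (j + 2))) •
          (a (φ (j + 2)) + (p : ℤ_[p]) ^ (N (φ (j + 2)) - 1) • y)) ∈ tanH ρ (⊤ : Subgroup Γ) := by
        rw [mem_tanH]
        refine ⟨fun m => τ (φ (j + 2)) ^ (p ^ m), fun m => Subgroup.mem_top _,
          ((continuous_toQ.tendsto _).comp hl).congr fun m => ?_⟩
        have e1 : TF.rat ρ (τ (φ (j + 2)) ^ (p ^ m)) = 1 + ((p : ℚ_[p]) ^ m) • toQ (x m) := by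
          rw [rat_apply, map_pow, Units.val_pow_eq_pow_val, hx, map_add, map_one, toQ_smul, map_pow]
          simp
        rw [e1, add_sub_cancel_left, smul_smul, inv_mul_cancel₀ (pow_ne_zero _ ell_ne), one_smul]
        rfl
      rw [toQ_smul] at h3
      have h4 := (tanH ρ (⊤ : Subgroup Γ)).smul_mem ((algebraMap ℤ_[p] ℚ_[p]
        ((p : ℤ_[p]) ^ (N (φ (j + 2)))))⁻¹) h3
      have h5 : algebraMap ℤ_[p] ℚ_[p] ((p : ℤ_[p]) ^ (N (φ (j + 2)))) ≠ 0 := by
        rw [map_pow]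
        refine pow_ne_zero _ ?_
        rw [map_natCast]
        exact ell_ne
      rwa [smul_smul, inv_mul_cancel₀ h5, one_smul] at h4
    choose y hy using h2
    refine (isClosed_tanH ρ ⊤).mem_of_tendsto (b := atTop) (f := fun j =>
      toQ (a (φ (j + 2)) + (p : ℤ_[p]) ^ (N (φ (j + 2)) - 1) • y j)) ?_
      (Eventually.of_forall hy)
    refine (continuous_toQ.tendsto _).comp ?_
    have e1 : Tendsto (fun j => a (φ (j + 2))) atTop (𝓝 A) :=
      hA.comp (tendsto_add_atTop_nat 2)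
    have e2 : Tendsto (fun j => (p : ℤ_[p]) ^ (N (φ (j + 2)) - 1) • y j) atTop (𝓝 0) := by
      have e3 := tendsto_p_smul (p := p) fun j =>
        (p : ℤ_[p]) ^ (N (φ (j + 2)) - 1 - j) • y j
      refine e3.congr fun j => ?_
      rw [smul_smul, ← pow_add]
      congr 2
      have := hφj (j + 2)
      omega
    have e4 := e1.add e2
    rwa [add_zero] at e4
  have hAH := hT hAt
  rw [mem_tanH] at hAH
  obtain ⟨h, hh, hl⟩ := hAH
  have h5 := hNt.eventually (eventually_congr hl)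
  have h6 := eventually_congr ((continuous_toQ.tendsto _).comp hA)
  obtain ⟨j, ⟨b, hb⟩, ⟨c, hc⟩⟩ := (h5.and h6).exists
  set k := N (φ j) with hk
  refine hbest (φ j) (h k)⁻¹ (H.inv_mem (hh k)) ⟨(c - b) *
    ((ρ (h k)⁻¹ : GL (Fin n) ℤ_[p]) : Matrix (Fin n) (Fin n) ℤ_[p]), ?_⟩
  have hinj : Function.Injective (toQ : Matrix (Fin n) (Fin n) ℤ_[p] → _) := by
    intro X Y hXY
    ext i j
    have e1 := congrFun (congrFun hXY i) j
    rw [toQ_apply, toQ_apply] at e1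
    exact IsFractionRing.injective ℤ_[p] ℚ_[p] e1
  have hρh : (ρ (h k) : Matrix (Fin n) (Fin n) ℤ_[p]) =
      1 + (p : ℤ_[p]) ^ k • (A + (p : ℤ_[p]) • b) := by
    apply hinj
    have e1 : toQ (ρ (h k) : Matrix (Fin n) (Fin n) ℤ_[p]) - 1 =
        ((p : ℚ_[p]) ^ k) • toQ (A + (p : ℤ_[p]) • b) := by
      rw [← hb, smul_smul, mul_inv_cancel₀ (pow_ne_zero _ ell_ne), one_smul]
      rfl
    rw [sub_eq_iff_eq_add'] at e1
    rw [e1, map_add toQ 1, map_one, toQ_smul, map_pow]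
    simp
  have hcA : a (φ j) = A + (p : ℤ_[p]) • c := by
    apply hinj
    exact hc
  have e1 : (ρ (τ (φ j) * (h k)⁻¹) : Matrix (Fin n) (Fin n) ℤ_[p]) =
      (ρ (τ (φ j)) : Matrix (Fin n) (Fin n) ℤ_[p]) *
        ((ρ (h k)⁻¹ : GL (Fin n) ℤ_[p]) : Matrix (Fin n) (Fin n) ℤ_[p]) := by
    rw [map_mul, Units.val_mul]
  have e2 : (ρ (h k) : Matrix (Fin n) (Fin n) ℤ_[p]) *
        ((ρ (h k)⁻¹ : GL (Fin n) ℤ_[p]) : Matrix (Fin n) (Fin n) ℤ_[p]) = 1 := by
    rw [← Units.val_mul, ← map_mul, mul_inv_cancel, map_one, Units.val_one]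
  have e3 : (ρ (τ (φ j)) : Matrix (Fin n) (Fin n) ℤ_[p]) =
      (ρ (h k) : Matrix (Fin n) (Fin n) ℤ_[p]) + (p : ℤ_[p]) ^ (k + 1) • (c - b) := by
    rw [ha, hρh, hcA, ← hk, pow_succ, ← smul_smul, smul_sub, smul_add, smul_add, smul_sub]
    abel
  rw [e1, e3, add_mul, e2, smul_mul_assoc]

end Pool.Agent.H850.LA
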