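import Pool.Agent.H850.OL.Red
import Pool.Agent.H850.OL.Reg2

/-!
# Lie algebras of matrices which act semisimply are reductive
-/

set_option autoImplicit false
set_option linter.unusedSectionVars false

namespace Pool.Agent.H850.LA

open LieAlgebra LieModule Pool.Agent.H850.TF

section abstract

variable (K L M : Type) [Field K] [IsAlgClosed K] [CharZero K]
  [LieRing L] [LieAlgebra K L] [Module.Finite K L] [AddCommGroup M] [Module K M]
  [Module.Finite K M] [LieRingModule L M] [LieModule K L M]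

/-- a Lie algebra with a faithful semisimple representation is the sum of its centre and the
derived algebra -/
theorem exists_central [ComplementedLattice (LieSubmodule K L M)] [IsFaithful K L M]
    (D : Submodule K L) (hD : ∀ x y : L, ⁅x, y⁆ ∈ D) (x : L) :
    ∃ z : L, (∀ y : L, ⁅y, z⁆ = 0) ∧ x - z ∈ D := by
  have := hasTrivialRadical_quotient K L M
  set π := LieSubmodule.Quotient.mk' (radical K L) with hπ
  have h1 := perfect_of_isKilling K (L ⧸ radical K L)
    (D.map (π : L →ₗ[K] L ⧸ radical K L)) (by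
      intro a b
      obtain ⟨a, rfl⟩ := LieSubmodule.Quotient.surjective_mk' (radical K L) a
      obtain ⟨b, rfl⟩ := LieSubmodule.Quotient.surjective_mk' (radical K L) b
      exact ⟨⁅a, b⁆, hD a b, rfl⟩)
  have h2 : π x ∈ D.map (π : L →ₗ[K] L ⧸ radical K L) := by
    rw [h1]
    trivial
  obtain ⟨d, hd, hdx⟩ := h2
  have h3 : x - d ∈ radical K L := by
    rw [← LieSubmodule.Quotient.mk_eq_zero (radical K L)]
    change π (x - d) = 0
    rw [map_sub]
    change π x - (π : L →ₗ[K] L ⧸ radical K L) d = 0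
    rw [hdx, sub_self]
  refine ⟨x - d, fun y => lie_radical_eq_zero K L M ⟨x - d, h3⟩ y, ?_⟩
  rwa [sub_sub_cancel]

end abstract

attribute [local instance 100] LieRing.ofAssociativeRing

variable {N : ℕ}

/-- the matrix form -/
theorem exists_central_matrix {F : Type} [Field F] [IsAlgClosed F] [CharZero F]
    (𝔥 : Submodule F (Matrix (Fin N) (Fin N) F)) (hbr : ∀ X ∈ 𝔥, ∀ Y ∈ 𝔥, X * Y - Y * X ∈ 𝔥)
    (hCR : CR (𝔥 : Set (Matrix (Fin N) (Fin N) F))) {X : Matrix (Fin N) (Fin N) F} (hX : X ∈ 𝔥) :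
    ∃ Z ∈ 𝔥, (∀ Y ∈ 𝔥, Commute Y Z) ∧
      X - Z ∈ Submodule.span F {D | ∃ A ∈ 𝔥, ∃ B ∈ 𝔥, D = A * B - B * A} := by
  let L : LieSubalgebra F (Module.End F (Fin N → F)) :=
    { carrier := {φ | LinearMap.toMatrix' φ ∈ 𝔥}
      add_mem' := by
        intro φ ψ h h'
        change LinearMap.toMatrix' (φ + ψ) ∈ 𝔥
        rw [map_add]
        exact 𝔥.add_mem h h'
      zero_mem' := by
        change LinearMap.toMatrix' 0 ∈ 𝔥
        rw [map_zero]
        exact 𝔥.zero_mem
      smul_mem' := by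
        intro c φ h
        change LinearMap.toMatrix' (c • φ) ∈ 𝔥
        rw [map_smul]
        exact 𝔥.smul_mem c h
      lie_mem' := by
        intro φ ψ h h'
        change LinearMap.toMatrix' (φ * ψ - ψ * φ) ∈ 𝔥
        rw [map_sub, Module.End.mul_eq_comp, Module.End.mul_eq_comp, LinearMap.toMatrix'_comp,
          LinearMap.toMatrix'_comp]
        exact hbr _ h _ h' }
  have hL : ∀ X ∈ 𝔥, Matrix.toLin' X ∈ L := by
    intro X hX
    change LinearMap.toMatrix' (Matrix.toLin' X) ∈ 𝔥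
    rwa [LinearMap.toMatrix'_toLin']
  have hcomp : ComplementedLattice (LieSubmodule F L (Fin N → F)) := by
    refine ⟨fun W => ?_⟩
    obtain ⟨W', hW', hc⟩ := hCR W.toSubmodule (by
      intro X hX x hx
      exact W.lie_mem (x := (⟨Matrix.toLin' X, hL X hX⟩ : L)) hx)
    refine ⟨{ toSubmodule := W'
              lie_mem := fun {φ x} hx => by
                have h1 : ⁅φ, x⁆ = (LinearMap.toMatrix' (φ : Module.End F (Fin N → F))).mulVec x := by
                  rw [← Matrix.toLin'_apply, Matrix.toLin'_toMatrix']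
                  rfl
                change ⁅φ, x⁆ ∈ W'
                rw [h1]
                exact hW' _ φ.2 x hx }, ?_⟩
    rw [← LieSubmodule.isCompl_toSubmodule]
    exact hc
  have hfaith : IsFaithful F L (Fin N → F) := by
    rw [isFaithful_iff]
    intro φ ψ h
    apply Subtype.ext
    exact h
  set S := Submodule.span F {D | ∃ A ∈ 𝔥, ∃ B ∈ 𝔥, D = A * B - B * A} with hS
  let Φ : L →ₗ[F] Matrix (Fin N) (Fin N) F :=
    (LinearMap.toMatrix' (R := F) (m := Fin N) (n := Fin N)).toLinearMap ∘ₗ L.toSubmodule.subtype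
  have hΦ : ∀ φ : L, Φ φ = LinearMap.toMatrix' (φ : Module.End F (Fin N → F)) := fun φ => rfl
  have hlie : ∀ a b : L, Φ ⁅a, b⁆ = Φ a * Φ b - Φ b * Φ a := by
    intro a b
    have h0 : ((⁅a, b⁆ : L) : Module.End F (Fin N → F)) = a.1 * b.1 - b.1 * a.1 := rfl
    rw [hΦ, hΦ, hΦ, h0, map_sub, Module.End.mul_eq_comp, Module.End.mul_eq_comp,
      LinearMap.toMatrix'_comp, LinearMap.toMatrix'_comp]
  obtain ⟨z, hz, hxz⟩ := exists_central F L (Fin N → F) (S.comap Φ) (by
    intro a b
    rw [Submodule.mem_comap, hlie]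
    exact Submodule.subset_span ⟨Φ a, a.2, Φ b, b.2, rfl⟩) ⟨Matrix.toLin' X, hL X hX⟩
  refine ⟨Φ z, z.2, fun Y hY => ?_, ?_⟩
  · have h1 := hlie ⟨Matrix.toLin' Y, hL Y hY⟩ z
    rw [hz, map_zero] at h1
    have h2 : Φ ⟨Matrix.toLin' Y, hL Y hY⟩ = Y := LinearMap.toMatrix'_toLin' Y
    rw [h2] at h1
    exact (sub_eq_zero.1 h1.symm)
  · rw [Submodule.mem_comap, map_sub] at hxz
    have h2 : Φ ⟨Matrix.toLin' X, hL X hX⟩ = X := LinearMap.toMatrix'_toLin' X
    rwa [h2] at hxz

section descent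

variable {K F : Type} [Field K] [CharZero K] [Field F] [Algebra K F]

/-- applying a functional to the entries -/
def fap (φ : F →ₗ[K] K) (Z : Matrix (Fin N) (Fin N) F) : Matrix (Fin N) (Fin N) K :=
  Z.map φ

theorem fap_mul_bc (φ : F →ₗ[K] K) (Z : Matrix (Fin N) (Fin N) F) (X : Matrix (Fin N) (Fin N) K) :
    fap φ (Z * bc X) = fap φ Z * X := by
  ext i j
  unfold fap
  rw [Matrix.map_apply, Matrix.mul_apply, Matrix.mul_apply, map_sum]
  refine Finset.sum_congr rfl fun l _ => ?_
  rw [bc_apply, Matrix.map_apply, mul_comm, ← Algebra.smul_def, map_smul, smul_eq_mul, mul_comm]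

theorem fap_bc_mul (φ : F →ₗ[K] K) (Z : Matrix (Fin N) (Fin N) F) (X : Matrix (Fin N) (Fin N) K) :
    fap φ (bc X * Z) = X * fap φ Z := by
  ext i j
  unfold fap
  rw [Matrix.map_apply, Matrix.mul_apply, Matrix.mul_apply, map_sum]
  refine Finset.sum_congr rfl fun l _ => ?_
  rw [bc_apply, Matrix.map_apply, ← Algebra.smul_def, map_smul, smul_eq_mul]

theorem fap_smul_bc (φ : F →ₗ[K] K) (c : F) (X : Matrix (Fin N) (Fin N) K) :
    fap φ (c • bc X) = φ c • X := by
  ext i j
  unfold fap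
  rw [Matrix.map_apply, Matrix.smul_apply, Matrix.smul_apply, bc_apply, smul_eq_mul, mul_comm,
    ← Algebra.smul_def, map_smul, smul_eq_mul, smul_eq_mul, mul_comm]

theorem fap_add (φ : F →ₗ[K] K) (Y Z : Matrix (Fin N) (Fin N) F) :
    fap φ (Y + Z) = fap φ Y + fap φ Z := by
  ext i j
  unfold fap
  rw [Matrix.map_apply, Matrix.add_apply, Matrix.add_apply, map_add]
  rfl

/-- matrices whose components are scalars -/
theorem scalar_of_fap {Z : Matrix (Fin N) (Fin N) F}
    (h1 : ∀ φ : F →ₗ[K] K, ∃ c : K, fap φ Z = c • 1) :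
    ∃ c : F, Z = c • (1 : Matrix (Fin N) (Fin N) F) := by
  have hoff : ∀ i j, i ≠ j → Z i j = 0 := by
    intro i j hij
    rw [← Module.forall_dual_apply_eq_zero_iff K]
    intro φ
    obtain ⟨c, hc⟩ := h1 φ
    have h2 := congrFun (congrFun hc i) j
    unfold fap at h2
    rw [Matrix.map_apply, Matrix.smul_apply, Matrix.one_apply_ne hij, smul_zero] at h2
    exact h2
  have hdiag : ∀ i j, Z i i = Z j j := by
    intro i j
    rw [← sub_eq_zero, ← Module.forall_dual_apply_eq_zero_iff K]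
    intro φ
    obtain ⟨c, hc⟩ := h1 φ
    have h2 := congrFun (congrFun hc i) i
    have h3 := congrFun (congrFun hc j) j
    unfold fap at h2 h3
    rw [Matrix.map_apply, Matrix.smul_apply, Matrix.one_apply_eq] at h2 h3
    rw [map_sub, h2, h3, sub_self]
  by_cases hN : N = 0
  · subst hN
    exact ⟨0, by ext i; exact i.elim0⟩
  · refine ⟨Z ⟨0, Nat.pos_of_ne_zero hN⟩ ⟨0, Nat.pos_of_ne_zero hN⟩, ?_⟩
    ext i j
    rw [Matrix.smul_apply, smul_eq_mul]
    by_cases hij : i = j
    · rw [hij, Matrix.one_apply_eq, mul_one]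
      exact hdiag _ _
    · rw [Matrix.one_apply_ne hij, mul_zero]
      exact hoff i j hij

theorem fap_mem {B : Submodule K (Matrix (Fin N) (Fin N) K)} {T : Matrix (Fin N) (Fin N) F}
    (hT : T ∈ Submodule.span F (img F (B : Set (Matrix (Fin N) (Fin N) K)))) :
    ∀ φ : F →ₗ[K] K, fap φ T ∈ B := by
  induction hT using Submodule.span_induction with
  | mem T hT =>
    intro φ
    obtain ⟨X, hX, rfl⟩ := hT
    have h1 := fap_smul_bc φ 1 X
    rw [one_smul] at h1
    rw [h1]
    exact B.smul_mem _ hX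
  | zero =>
    intro φ
    have h1 : fap φ (0 : Matrix (Fin N) (Fin N) F) = 0 := by
      ext i j
      unfold fap
      rw [Matrix.map_apply, Matrix.zero_apply, map_zero, Matrix.zero_apply]
    rw [h1]
    exact B.zero_mem
  | add Y Z _ _ hY hZ =>
    intro φ
    rw [fap_add]
    exact B.add_mem (hY φ) (hZ φ)
  | smul c Y _ hY =>
    intro φ
    have h1 : fap φ (c • Y) = fap (φ ∘ₗ LinearMap.mulLeft K c) Y := by
      ext i j
      rfl
    rw [h1]
    exact hY _

/-- **A Lie algebra of matrices over any field of characteristic zero which acts semisimply and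
whose centre consists of scalars is the sum of the derived algebra and scalars.** -/
theorem sub_scalar_mem (L₀ : Submodule K (Matrix (Fin N) (Fin N) K))
    (hbr : ∀ X ∈ L₀, ∀ Y ∈ L₀, X * Y - Y * X ∈ L₀)
    (hCR : CR (L₀ : Set (Matrix (Fin N) (Fin N) K)))
    (hcomm : ∀ X ∈ L₀, (∀ A ∈ L₀, Commute A X) → ∃ c : K, X = c • 1)
    {A : Matrix (Fin N) (Fin N) K} (hA : A ∈ L₀) :
    ∃ c : K, A - c • 1 ∈ Submodule.span K {D | ∃ B ∈ L₀, ∃ C ∈ L₀, D = B * C - C * B} := by
  classical
  let F := AlgebraicClosure K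
  have hchar : CharZero F := charZero_of_injective_algebraMap (algebraMap K F).injective
  set B := Submodule.span K {D | ∃ B ∈ L₀, ∃ C ∈ L₀, D = B * C - C * B} with hB
  set A₀ := Algebra.adjoin K (L₀ : Set (Matrix (Fin N) (Fin N) K)) with hA₀
  have hss := semisimple_of_nondeg _ (nondeg_bc (F := F) A₀ (nondeg_of_CR hCR))
  have hCRF := CR_of_semisimple _ hss
  set 𝔥 := Submodule.span F (img F (L₀ : Set (Matrix (Fin N) (Fin N) K))) with h𝔥
  have hAimg : img F (A₀ : Set (Matrix (Fin N) (Fin N) K)) ⊆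
      (Algebra.adjoin F (img F (L₀ : Set (Matrix (Fin N) (Fin N) K))) : Set _) := by
    rintro _ ⟨x, hx, rfl⟩
    exact bc_mem_adjoin hx
  have hCR𝔥 : CR (𝔥 : Set (Matrix (Fin N) (Fin N) F)) := by
    intro W hW
    obtain ⟨W', hW', hc⟩ := hCRF W (by
      refine stable_adjoin ?_
      intro X hX
      exact stable_adjoin (fun Y hY => hW Y (Submodule.subset_span hY)) X (hAimg hX))
    refine ⟨W', ?_, hc⟩
    refine stable_span ?_
    intro X hX
    obtain ⟨Y, hY, rfl⟩ := hX
    exact hW' _ (Algebra.subset_adjoin ⟨Y, Algebra.subset_adjoin hY, rfl⟩)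
  have hgen : ∀ X ∈ 𝔥, ∀ Y ∈ 𝔥, X * Y - Y * X ∈
      Submodule.span F (img F (B : Set (Matrix (Fin N) (Fin N) K))) := by
    intro X hX Y hY
    induction hX using Submodule.span_induction with
    | mem X hX =>
      induction hY using Submodule.span_induction with
      | mem Y hY =>
        obtain ⟨X', hX', rfl⟩ := hX
        obtain ⟨Y', hY', rfl⟩ := hY
        refine Submodule.subset_span ⟨X' * Y' - Y' * X',
          Submodule.subset_span ⟨X', hX', Y', hY', rfl⟩, ?_⟩
        rw [map_sub, map_mul (bc (K := K) (F := F)), map_mul (bc (K := K) (F := F))]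
      | zero =>
        rw [mul_zero, zero_mul, sub_zero]
        exact Submodule.zero_mem _
      | add Y Y' _ _ h h' =>
        have h7 : X * (Y + Y') - (Y + Y') * X = (X * Y - Y * X) + (X * Y' - Y' * X) := by
          rw [mul_add, add_mul]; abel
        rw [h7]
        exact Submodule.add_mem _ h h'
      | smul c Y _ h =>
        have h7 : X * (c • Y) - (c • Y) * X = c • (X * Y - Y * X) := by
          rw [mul_smul_comm, smul_mul_assoc, smul_sub]
        rw [h7]
        exact Submodule.smul_mem _ _ h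
    | zero =>
      rw [mul_zero, zero_mul, sub_zero]
      exact Submodule.zero_mem _
    | add X X' _ _ h h' =>
      have h7 : (X + X') * Y - Y * (X + X') = (X * Y - Y * X) + (X' * Y - Y * X') := by
        rw [mul_add, add_mul]; abel
      rw [h7]
      exact Submodule.add_mem _ h h'
    | smul c X _ h =>
      have h7 : (c • X) * Y - Y * (c • X) = c • (X * Y - Y * X) := by
        rw [mul_smul_comm, smul_mul_assoc, smul_sub]
      rw [h7]
      exact Submodule.smul_mem _ _ h
  have hBL : B ≤ L₀ := by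
    rw [hB]
    refine Submodule.span_le.2 ?_
    rintro _ ⟨X, hX, Y, hY, rfl⟩
    exact hbr X hX Y hY
  have hbr' : ∀ X ∈ 𝔥, ∀ Y ∈ 𝔥, X * Y - Y * X ∈ 𝔥 := by
    intro X hX Y hY
    refine Submodule.span_mono ?_ (hgen X hX Y hY)
    rintro _ ⟨Z, hZ, rfl⟩
    exact ⟨Z, hBL hZ, rfl⟩
  obtain ⟨Z, hZ𝔥, hZc, hZ⟩ := exists_central_matrix 𝔥 hbr' hCR𝔥 (X := bc A)
    (Submodule.subset_span ⟨A, hA, rfl⟩)
  obtain ⟨c, hc⟩ := scalar_of_fap (K := K) (Z := Z) (by
    intro φ
    refine hcomm _ (fap_mem hZ𝔥 φ) fun A hA => ?_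
    change A * fap φ Z = fap φ Z * A
    rw [← fap_mul_bc, ← fap_bc_mul,
      (hZc _ (Submodule.subset_span ⟨A, hA, rfl⟩)).eq])
  obtain ⟨φ, hφ⟩ := LinearMap.exists_leftInverse_of_injective (Algebra.linearMap K F)
    (LinearMap.ker_eq_bot.2 (algebraMap K F).injective)
  have hφ1 : φ 1 = 1 := by
    have h1 := congrArg (fun g : K →ₗ[K] K => g 1) hφ
    simpa using h1
  have hle : Submodule.span F {D | ∃ X ∈ 𝔥, ∃ Y ∈ 𝔥, D = X * Y - Y * X} ≤
      Submodule.span F (img F (B : Set (Matrix (Fin N) (Fin N) K))) := by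
    rw [Submodule.span_le]
    rintro _ ⟨X, hX, Y, hY, rfl⟩
    exact hgen X hX Y hY
  have hZ' : bc A - Z ∈ Submodule.span F (img F (B : Set (Matrix (Fin N) (Fin N) K))) := hle hZ
  refine ⟨φ c, ?_⟩
  have h1 := fap_mem hZ' φ
  have h2 : fap φ (bc A - Z) = A - φ c • 1 := by
    have e1 : bc A - Z = (1 : F) • bc A + (-c) • (bc (1 : Matrix (Fin N) (Fin N) K) :
        Matrix (Fin N) (Fin N) F) := by
      rw [hc, map_one, one_smul, neg_smul, sub_eq_add_neg]
    rw [e1, fap_add, fap_smul_bc, fap_smul_bc, hφ1, one_smul, map_neg, neg_smul, sub_eq_add_neg]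
  rwa [h2] at h1

end descent

end Pool.Agent.H850.LA
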