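import Pool.Agent.H850.LA.Fin
import Pool.Agent.H850.LA.Rd
import Pool.Agent.H850.MT.Dual

/-!
# The Lie algebra of a semisimple representation with scalar commutant
-/

set_option autoImplicit false
set_option linter.unusedSectionVars false

open Matrix Filter Topology

namespace Pool.Agent.H850.LA

open Pool.Agent.H850.TF Pool.Agent.H850.RG Pool.Agent.H850.MT2

variable {p : ℕ} [Fact p.Prime] {n : ℕ} {Γ : Type} [Group Γ] (ρ : Γ →* GL (Fin n) ℤ_[p])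

/-- small elements are polynomials in elements of the Lie algebra -/
theorem exists_tan_adjoin {σ : Γ} (hσ : σ ∈ U1 ρ) :
    ∃ L ∈ tanH ρ (⊤ : Subgroup Γ), TF.rat ρ σ ∈ Algebra.adjoin ℚ_[p] {L} := by
  have hG := small_imag ρ (U1 ρ) le_rfl
  obtain ⟨X, ⟨x, hx, hl⟩, -, h2⟩ := hG.exists_log
    (g := (ρ σ : Matrix (Fin n) (Fin n) ℤ_[p])) ⟨σ, hσ, rfl⟩
  refine ⟨toQ X, ?_, h2⟩
  rw [mem_tanH]
  refine ⟨fun m => σ ^ (p ^ m), fun m => Subgroup.mem_top _, ?_⟩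
  refine ((continuous_toQ.tendsto _).comp hl).congr fun m => ?_
  have h1 : TF.rat ρ (σ ^ (p ^ m)) = 1 + ((p : ℚ_[p]) ^ m) • toQ (x m) := by
    rw [rat_apply, map_pow, Units.val_pow_eq_pow_val, hx, map_add, map_one, toQ_smul, map_pow]
    simp
  rw [h1, add_sub_cancel_left, smul_smul, inv_mul_cancel₀ (pow_ne_zero _ ell_ne), one_smul]
  rfl

/-- the Lie algebra is that of every subgroup which contains the `k`-th powers -/
theorem tanH_le_of_pow {H : Subgroup Γ} {k : ℕ} (hk : k ≠ 0) (hH : ∀ x : Γ, x ^ k ∈ H) :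
    tanH ρ (⊤ : Subgroup Γ) ≤ tanH ρ H := by
  intro A hA
  rw [mem_tanH] at hA
  obtain ⟨σ, -, hl⟩ := hA
  have h1 : Tendsto (fun m => TF.rat ρ (σ m)) atTop (𝓝 1) := rho_tendsto (TF.rat ρ) hl
  have h2 : Tendsto (fun m => (∑ i ∈ Finset.range k, TF.rat ρ (σ m) ^ i) *
      (((p : ℚ_[p]) ^ m)⁻¹ • (TF.rat ρ (σ m) - 1))) atTop
      (𝓝 ((∑ i ∈ Finset.range k, (1 : Matrix (Fin n) (Fin n) ℚ_[p]) ^ i) * A)) := by
    refine Tendsto.mul (tendsto_finsetSum _ fun i _ => ?_) hl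
    exact h1.pow i
  have h3 : (∑ i ∈ Finset.range k, (1 : Matrix (Fin n) (Fin n) ℚ_[p]) ^ i) * A =
      (k : ℚ_[p]) • A := by
    simp only [one_pow, Finset.sum_const, Finset.card_range]
    rw [nsmul_eq_mul, mul_one, ← Matrix.diagonal_natCast, ← Matrix.smul_eq_diagonal_mul]
  rw [h3] at h2
  have h4 : (k : ℚ_[p]) • A ∈ tanH ρ H := by
    rw [mem_tanH]
    refine ⟨fun m => σ m ^ k, fun m => hH _, h2.congr fun m => ?_⟩
    rw [mul_smul_comm, geom_sum_mul, map_pow]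
  have hk0 : (k : ℚ_[p]) ≠ 0 := by exact_mod_cast hk
  have h5 := (tanH ρ H).smul_mem (k : ℚ_[p])⁻¹ h4
  rwa [smul_smul, inv_mul_cancel₀ hk0, one_smul] at h5

/-- subspaces stable under `H` are stable under its Lie algebra -/
theorem stable_tanH {H : Subgroup Γ} {W : Submodule ℚ_[p] (Fin n → ℚ_[p])}
    (hW : ∀ σ ∈ H, ∀ x ∈ W, (TF.rat ρ σ).mulVec x ∈ W) :
    ∀ A ∈ tanH ρ H, ∀ x ∈ W, A.mulVec x ∈ W := by
  intro A hA x hx
  rw [mem_tanH] at hA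
  obtain ⟨σ, hσ, hl⟩ := hA
  have hcl : IsClosed (W : Set (Fin n → ℚ_[p])) := W.closed_of_finiteDimensional
  have hc : Continuous fun B : Matrix (Fin n) (Fin n) ℚ_[p] => B.mulVec x := by
    fun_prop
  refine hcl.mem_of_tendsto ((hc.tendsto A).comp hl) (Eventually.of_forall fun m => ?_)
  change (((p : ℚ_[p]) ^ m)⁻¹ • (TF.rat ρ (σ m) - 1)).mulVec x ∈ W
  rw [Matrix.smul_mulVec, Matrix.sub_mulVec, Matrix.one_mulVec]
  exact W.smul_mem _ (W.sub_mem (hW _ (hσ m) x hx) hx)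

variable [TopologicalSpace Γ] [IsTopologicalGroup Γ] [CompactSpace Γ]

/-- the Lie algebra acts semisimply -/
theorem CR_tanH (hρ : Continuous fun σ => (ρ σ : Matrix (Fin n) (Fin n) ℤ_[p]))
    (hss : CR (Set.range (TF.rat ρ))) :
    CR (tanH ρ (⊤ : Subgroup Γ) : Set (Matrix (Fin n) (Fin n) ℚ_[p])) := by
  obtain ⟨k, hk, hU⟩ := exists_pow_U1 ρ hρ
  have hcl := clifford (TF.rat ρ) (U1 ρ) hss
  intro W hW
  obtain ⟨W', hW', hc⟩ := hcl W (by
    rintro _ ⟨σ, hσ, rfl⟩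
    obtain ⟨L, hL, hσL⟩ := exists_tan_adjoin ρ hσ
    refine stable_adjoin ?_ _ hσL
    intro B hB
    rw [Set.mem_singleton_iff] at hB
    rw [hB]
    exact hW L hL)
  refine ⟨W', fun A hA => ?_, hc⟩
  exact stable_tanH ρ (H := U1 ρ) (fun σ hσ => hW' _ ⟨σ, hσ, rfl⟩) A (tanH_le_of_pow ρ hk hU hA)

/-- **If the centre consists of scalars, the Lie algebra is the sum of the derived algebra and
scalars.** -/
theorem scalar_centre (hρ : Continuous fun σ => (ρ σ : Matrix (Fin n) (Fin n) ℤ_[p]))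
    (hss : CR (Set.range (TF.rat ρ))) (hconn : ∀ σ, σ ∈ conn ρ)
    (hsc : ∀ X ∈ tanH ρ (⊤ : Subgroup Γ), (∀ σ, Commute (TF.rat ρ σ) X) →
      ∃ c : ℚ_[p], X = c • 1) {A : Matrix (Fin n) (Fin n) ℚ_[p]}
    (hA : A ∈ tanH ρ (⊤ : Subgroup Γ)) : ∃ c : ℚ_[p], A - c • 1 ∈ brk ρ := by
  refine sub_scalar_mem (tanH ρ (⊤ : Subgroup Γ)) (fun X hX Y hY => ?_) (CR_tanH ρ hρ hss)
    (fun X hXL hX => ?_) hA
  · exact bracket_mem ρ (tanH ρ ⊤) (isClosed_tanH ρ ⊤) hX fun g hg =>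
      (tanH ρ ⊤).sub_mem (tanH_conj ρ hg hY) hY
  · refine hsc X hXL ?_
    have h5 : ConnOn ρ ⊤ := fun D hD V hV hDV u _ =>
      connOn_conn ρ D hD V hV hDV u (hconn u)
    refine commute_of_open h5 (isOpen_U1 ρ hρ) fun v hv => ?_
    obtain ⟨L, hL, hvL⟩ := exists_tan_adjoin ρ hv
    refine TF.commute_of_adjoin ?_ hvL
    intro B hB
    rw [Set.mem_singleton_iff] at hB
    rw [hB]
    exact hX L hL

end Pool.Agent.H850.LA
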