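import Pool.Agent.H850.MT.Zar
import Pool.Agent.H850.LA.Sc
import Pool.Agent.H850.RG.Aug

/-!
# Random pairs: Zariski density and the Lie algebra
-/

set_option autoImplicit false
set_option linter.unusedSectionVars false

open Matrix Filter Topology MeasureTheory

namespace Pool.Agent.H850.LA

open Pool.Agent.H850.TF Pool.Agent.H850.RG Pool.Agent.H850.MT2

variable {p : ℕ} [Fact p.Prime] {n : ℕ} {Γ : Type} [Group Γ]

section res

variable (ρ : Γ →* GL (Fin n) ℤ_[p]) (U : Subgroup Γ)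

theorem rat_res (u : U) : TF.rat (ρ.comp U.subtype) u = TF.rat ρ (u : Γ) := rfl

theorem rat_tp_res (m : ℕ) (u : U) :
    TF.rat (tp m (MT2.aug (ρ.comp U.subtype))) u = TF.rat (tp m (MT2.aug ρ)) (u : Γ) := rfl

theorem tanH_res_top : tanH ρ U ≤ tanH (ρ.comp U.subtype) (⊤ : Subgroup U) := by
  intro X hX
  rw [mem_tanH] at hX ⊢
  obtain ⟨σ, hσ, hl⟩ := hX
  exact ⟨fun m => ⟨σ m, hσ m⟩, fun m => Subgroup.mem_top _, hl⟩

theorem tanH_res (H : Subgroup U) :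
    tanH (ρ.comp U.subtype) H ≤ tanH ρ (H.map U.subtype) := by
  intro X hX
  rw [mem_tanH] at hX ⊢
  obtain ⟨σ, hσ, hl⟩ := hX
  exact ⟨fun m => σ m, fun m => ⟨σ m, hσ m, rfl⟩, hl⟩

end res

variable [TopologicalSpace Γ] [IsTopologicalGroup Γ] [CompactSpace Γ]

/-- the Lie algebra of an open subgroup -/
theorem tanH_open (ρ : Γ →* GL (Fin n) ℤ_[p]) {H : Subgroup Γ} (hH : IsOpen (H : Set Γ)) :
    tanH ρ (⊤ : Subgroup Γ) ≤ tanH ρ H := by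
  have hfin : Finite (Γ ⧸ H) := Subgroup.quotient_finite_of_isOpen _ hH
  have hidx : H.FiniteIndex := Subgroup.finiteIndex_of_finite_quotient
  have hidx' : H.normalCore.FiniteIndex := inferInstance
  refine tanH_le_of_pow ρ hidx'.index_ne_zero fun x => ?_
  exact H.normalCore_le (Subgroup.pow_index_mem H.normalCore x)

/-- **If the Lie algebra is perfect, the closure of the image is open.** -/
theorem open_of_brackets {ρ : Γ →* GL (Fin n) ℤ_[p]}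
    (hρ : Continuous fun σ => (ρ σ : Matrix (Fin n) (Fin n) ℤ_[p])) {H : Subgroup Γ}
    (hH : ∀ X ∈ tanH ρ (⊤ : Subgroup Γ), ∀ Y ∈ tanH ρ (⊤ : Subgroup Γ), X * Y - Y * X ∈ tanH ρ H)
    (hperf : ∀ X ∈ tanH ρ (⊤ : Subgroup Γ), X ∈ brk ρ) :
    ∃ V : Subgroup Γ, IsOpen (V : Set Γ) ∧
      ∀ σ ∈ V, TF.rat ρ σ ∈ closure (TF.rat ρ '' (H : Set Γ)) := by
  have hT : tanH ρ (⊤ : Subgroup Γ) ≤ tanH ρ H := by
    intro X hX
    have h1 : brk ρ ≤ tanH ρ H := by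
      unfold brk
      rw [Submodule.span_le]
      rintro _ ⟨A, hA, B, hB, rfl⟩
      exact hH A hA B hB
    exact h1 (hperf X hX)
  obtain ⟨m, hm⟩ := open_of_tan ρ hT
  exact ⟨levSub ρ m, isOpen_levSub ρ hρ m, fun σ hσ => hm σ hσ⟩

variable [TotallyDisconnectedSpace Γ] [MeasurableSpace Γ] [BorelSpace Γ]

/-- **Almost every pair of elements generates a Zariski dense subgroup.** -/
theorem ae_ZD (μ : Measure Γ) [μ.IsHaarMeasure] {ρ : Γ →* GL (Fin n) ℤ_[p]}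
    (hρ : Continuous fun σ => (ρ σ : Matrix (Fin n) (Fin n) ℤ_[p]))
    (hss : CR (Set.range (TF.rat ρ))) :
    ∀ᵐ σ ∂μ, ∀ᵐ τ ∂μ, ∀ (hσ : σ ∈ conn ρ) (hτ : τ ∈ conn ρ), ∀ k : ℕ, k ≠ 0 →
      ZD (ρ.comp (conn ρ).subtype) ((⟨σ, hσ⟩ : conn ρ) ^ k) ((⟨τ, hτ⟩ : conn ρ) ^ k) := by
  have hss1 := CR_aug hss
  have hcont : Continuous fun σ => (MT2.aug ρ σ : Matrix (Fin (n + 1)) (Fin (n + 1)) ℤ_[p]) :=
    continuous_dsm hρ continuous_const
  have hc1 : ∀ m, ConnOn (tp m (MT2.aug ρ)) (conn ρ) := fun m =>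
    connOn_tp m (connOn_aug (connOn_conn ρ))
  have h1 : ∀ q : ℕ × ℕ, ∀ᵐ σ ∂μ, ∀ᵐ τ ∂μ, q.2 ≠ 0 → σ ∈ conn ρ → τ ∈ conn ρ → ∀ u ∈ conn ρ,
      TF.rat (tp q.1 (MT2.aug ρ)) u ∈ Algebra.adjoin ℚ_[p]
        {TF.rat (tp q.1 (MT2.aug ρ)) (σ ^ q.2), TF.rat (tp q.1 (MT2.aug ρ)) (τ ^ q.2)} := by
    rintro ⟨m, k⟩
    by_cases hk : k = 0
    · exact Eventually.of_forall fun σ => Eventually.of_forall fun τ h => absurd hk h
    · filter_upwards [(hc1 m).pair μ (continuous_tp m hcont) (isOpen_conn ρ)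
        (CR_tp m hcont hss1) hk] with σ hσ
      filter_upwards [hσ] with τ hτ _
      exact hτ
  filter_upwards [ae_all_iff.2 h1] with σ hσ
  filter_upwards [ae_all_iff.2 hσ] with τ hτ hσU hτU k hk
  exact zariski_of_gen fun m u => hτ (m, k) hk hσU hτU u u.2

/-- **The Lie algebra of the closure of the group generated by powers of a random pair contains
the derived algebra.** -/
theorem ae_brackets (μ : Measure Γ) [μ.IsHaarMeasure] {ρ : Γ →* GL (Fin n) ℤ_[p]}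
    (hρ : Continuous fun σ => (ρ σ : Matrix (Fin n) (Fin n) ℤ_[p]))
    (hss : CR (Set.range (TF.rat ρ))) :
    ∀ᵐ σ ∂μ, ∀ᵐ τ ∂μ, σ ∈ conn ρ → τ ∈ conn ρ → ∀ k : ℕ, k ≠ 0 →
      ∀ X ∈ tanH ρ (⊤ : Subgroup Γ), ∀ Y ∈ tanH ρ (⊤ : Subgroup Γ),
        X * Y - Y * X ∈ tanH ρ (Subgroup.closure {σ ^ k, τ ^ k}) := by
  obtain ⟨m, hm, hU⟩ := exists_pow_U1 ρ hρ
  filter_upwards [ae_ZD μ hρ hss] with σ hσ
  filter_upwards [hσ] with τ hτ hσU hτU k hk X hX Y hY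
  have hU' : ∀ x : conn ρ, x ^ m ∈ U1 (ρ.comp (conn ρ).subtype) := fun x => hU (x : Γ)
  have hle : tanH ρ (⊤ : Subgroup Γ) ≤ tanH (ρ.comp (conn ρ).subtype) (⊤ : Subgroup (conn ρ)) :=
    (tanH_open ρ (isOpen_conn ρ)).trans (tanH_res_top ρ _)
  have h1 := derived_le (ρ.comp (conn ρ).subtype) (x := ⟨σ, hσU⟩) (y := ⟨τ, hτU⟩)
    (fun k hk => hτ hσU hτU k hk) hm (hU' _) (hU' _) hk (hle hX) (hle hY)
  have h2 := tanH_res ρ _ _ h1
  rw [MonoidHom.map_closure, Set.image_pair] at h2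
  exact h2

end Pool.Agent.H850.LA
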