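import Pool.Agent.H850.LA.Sc
import Pool.Agent.H850.MT.Fix
import Pool.Graph.R_seed8.W516.MT.AllFinal

/-!
# The centre of the Lie algebra of an abelian variety and the Rosati involution
-/

set_option autoImplicit false
set_option linter.unusedSectionVars false

open Matrix Filter Topology TensorProduct Module

namespace Pool.Agent.H850.LA

open Pool.Agent.H850.TF Pool.Agent.H850.RG Pool.Agent.H850.MT2
open Pool.Agent.H204R3.GP (IsHodgeEnd)
open Pool.Agent.W516.MTD (endos)

section algebra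

variable {K F : Type} [Field K] [CharZero K] [Field F] [Algebra K F] {N : ℕ}

/-- central endomorphisms which are similitudes are scalars if the Rosati involution is trivial on
the centre -/
theorem scalar_of_rosati (E₀ : Submodule K (Matrix (Fin N) (Fin N) K))
    {J₀ J' : Matrix (Fin N) (Fin N) K} (hJ : J' * J₀ = 1)
    (hE : ∀ P ∈ E₀, (∀ Q ∈ E₀, Commute Q P) → P.transpose * J₀ = J₀ * P)
    {X : Matrix (Fin N) (Fin N) F}
    (hX : X ∈ Submodule.span F (img F (E₀ : Set (Matrix (Fin N) (Fin N) K))))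
    (hXc : ∀ Q ∈ E₀, Commute (bc Q) X) {c : F}
    (hXJ : X.transpose * bc J₀ + bc J₀ * X = c • (bc J₀ : Matrix (Fin N) (Fin N) F)) :
    ∃ d : F, X = d • (1 : Matrix (Fin N) (Fin N) F) := by
  refine scalar_of_fap (K := K) fun φ => ⟨φ c / 2, ?_⟩
  have h1 : fap φ X ∈ E₀ := fap_mem hX φ
  have h2 : ∀ Q ∈ E₀, Commute Q (fap φ X) := by
    intro Q hQ
    change Q * fap φ X = fap φ X * Q
    rw [← fap_mul_bc, ← fap_bc_mul, (hXc Q hQ).eq]
  have h3 := hE _ h1 h2
  have h4 := congrArg (fap φ) hXJ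
  rw [fap_add, fap_mul_bc, fap_bc_mul, fap_smul_bc] at h4
  have h5 : fap φ X.transpose = (fap φ X).transpose := rfl
  rw [h5, h3] at h4
  have h6 : (2 : K) • (J₀ * fap φ X) = φ c • J₀ := by
    rw [two_smul]
    exact h4
  have h7 : J₀ * fap φ X = (φ c / 2) • J₀ := by
    have h8 := congrArg (fun M => (2 : K)⁻¹ • M) h6
    simp only [smul_smul] at h8
    rw [inv_mul_cancel₀ (two_ne_zero), one_smul] at h8
    rw [h8]
    congr 1
    ring
  calc fap φ X = J' * J₀ * fap φ X := by rw [hJ, one_mul]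
    _ = J' * ((φ c / 2) • J₀) := by rw [mul_assoc, h7]
    _ = _ := by rw [mul_smul_comm, hJ]

end algebra

section group

variable {p : ℕ} [Fact p.Prime] {n : ℕ} {Γ : Type} [Group Γ] (ρ : Γ →* GL (Fin n) ℤ_[p])

/-- matrices commuting with the image commute with the Lie algebra -/
theorem commute_tan {P X : Matrix (Fin n) (Fin n) ℚ_[p]} (hP : ∀ σ, Commute (TF.rat ρ σ) P)
    (hX : X ∈ tanH ρ (⊤ : Subgroup Γ)) : Commute P X := by
  rw [mem_tanH] at hX
  obtain ⟨σ, -, hl⟩ := hX
  have hcl : IsClosed {Y : Matrix (Fin n) (Fin n) ℚ_[p] | P * Y = Y * P} :=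
    isClosed_eq (continuous_const.mul continuous_id) (continuous_id.mul continuous_const)
  refine hcl.mem_of_tendsto hl (Eventually.of_forall fun m => ?_)
  change P * (((p : ℚ_[p]) ^ m)⁻¹ • (TF.rat ρ (σ m) - 1)) =
    (((p : ℚ_[p]) ^ m)⁻¹ • (TF.rat ρ (σ m) - 1)) * P
  rw [mul_smul_comm, smul_mul_assoc, mul_sub, sub_mul, mul_one, one_mul, (hP (σ m)).eq]

/-- the Lie algebra consists of infinitesimal similitudes -/
theorem similitude_tan {χ : Γ → ℚ_[p]} {J : Matrix (Fin n) (Fin n) ℚ_[p]}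
    (hρJ : ∀ σ, (TF.rat ρ σ).transpose * J * TF.rat ρ σ = χ σ • J)
    {X : Matrix (Fin n) (Fin n) ℚ_[p]} (hX : X ∈ tanH ρ (⊤ : Subgroup Γ)) :
    ∃ c : ℚ_[p], X.transpose * J + J * X = c • J := by
  rw [mem_tanH] at hX
  obtain ⟨σ, -, hl⟩ := hX
  have h1 : Tendsto (fun m => TF.rat ρ (σ m)) atTop (𝓝 1) := rho_tendsto (TF.rat ρ) hl
  have hcl : IsClosed ((Submodule.span ℚ_[p] {J} :
      Submodule ℚ_[p] (Matrix (Fin n) (Fin n) ℚ_[p])) : Set (Matrix (Fin n) (Fin n) ℚ_[p])) :=
    Submodule.closed_of_finiteDimensional _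
  have ht : Tendsto (fun m => (((p : ℚ_[p]) ^ m)⁻¹ • (TF.rat ρ (σ m) - 1)).transpose) atTop
      (𝓝 X.transpose) := (continuous_id.matrix_transpose.tendsto X).comp hl
  have h2 : Tendsto (fun m => (((p : ℚ_[p]) ^ m)⁻¹ • (TF.rat ρ (σ m) - 1)).transpose * J *
      TF.rat ρ (σ m) + J * (((p : ℚ_[p]) ^ m)⁻¹ • (TF.rat ρ (σ m) - 1))) atTop
      (𝓝 (X.transpose * J * 1 + J * X)) :=
    ((ht.mul tendsto_const_nhds).mul h1).add (tendsto_const_nhds.mul hl)
  rw [mul_one] at h2
  have h3 : X.transpose * J + J * X ∈ Submodule.span ℚ_[p] {J} := by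
    refine hcl.mem_of_tendsto h2 (Eventually.of_forall fun m => ?_)
    refine Submodule.mem_span_singleton.2 ⟨((p : ℚ_[p]) ^ m)⁻¹ * (χ (σ m) - 1), ?_⟩
    rw [Matrix.transpose_smul, Matrix.transpose_sub, Matrix.transpose_one, smul_mul_assoc,
      smul_mul_assoc, mul_smul_comm, ← smul_add, mul_smul, sub_mul, sub_mul, hρJ, mul_sub,
      one_mul, mul_one, sub_smul, one_smul]
    congr 1
    abel
  obtain ⟨c, hc⟩ := Submodule.mem_span_singleton.1 h3
  exact ⟨c, hc.symm⟩

variable [TopologicalSpace Γ] [IsTopologicalGroup Γ] [CompactSpace Γ]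

/-- matrices commuting with a subgroup of finite index commute with the connected group -/
theorem commute_of_finiteIndex (hρ : Continuous fun σ => (ρ σ : Matrix (Fin n) (Fin n) ℤ_[p]))
    (hconn : ∀ σ, σ ∈ conn ρ) {P : Matrix (Fin n) (Fin n) ℚ_[p]} {Δ : Subgroup Γ}
    (hΔ : Δ.FiniteIndex) (hP : ∀ s ∈ Δ, Commute (TF.rat ρ s) P) (σ : Γ) :
    Commute (TF.rat ρ σ) P := by
  have hcont : Continuous fun σ => TF.rat ρ σ := continuous_toQ.comp hρ
  have hclosed : IsClosed {σ : Γ | Commute (TF.rat ρ σ) P} :=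
    isClosed_eq (hcont.mul continuous_const) (continuous_const.mul hcont)
  have hsub : ((Δ.topologicalClosure : Subgroup Γ) : Set Γ) ⊆ {σ : Γ | Commute (TF.rat ρ σ) P} := by
    rw [Subgroup.topologicalClosure_coe]
    exact hclosed.closure_subset_iff.2 hP
  have hfi : (Δ.topologicalClosure).FiniteIndex :=
    Subgroup.finiteIndex_of_le Δ.le_topologicalClosure
  have hopen : IsOpen ((Δ.topologicalClosure : Subgroup Γ) : Set Γ) :=
    Subgroup.isOpen_of_isClosed_of_finiteIndex _ Δ.isClosed_topologicalClosure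
  have hct : ConnOn ρ ⊤ := fun D hD V hV hDV u _ =>
    connOn_conn ρ D hD V hV hDV u (hconn u)
  exact commute_of_open hct hopen (fun v hv => hsub hv) σ

end group

section hodge

variable {n : ℕ} {T : Type} [AddCommGroup T] [Module ℂ T] (per : (Fin n → ℚ) →+ T)

/-- the matrices of the endomorphisms of the abelian variety -/
def hodgeMat : Submodule ℚ (Matrix (Fin n) (Fin n) ℚ) where
  carrier := {M | IsHodgeEnd per (Matrix.toLin' M)}
  add_mem' := by
    rintro A B ⟨P, hP⟩ ⟨Q, hQ⟩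
    refine ⟨P + Q, fun w => ?_⟩
    rw [LinearMap.add_apply, hP, hQ, map_add (Matrix.toLin'), LinearMap.add_apply, map_add per]
  zero_mem' := ⟨0, fun w => by rw [map_zero, LinearMap.zero_apply, LinearMap.zero_apply, map_zero]⟩
  smul_mem' := by
    rintro c A ⟨P, hP⟩
    refine ⟨(c : ℂ) • P, fun w => ?_⟩
    rw [LinearMap.smul_apply, hP, map_smul (Matrix.toLin'), LinearMap.smul_apply]
    have h1 := map_ratCast_smul per ℚ ℂ c (Matrix.toLin' A w)
    rw [Rat.cast_id] at h1
    exact h1.symm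

variable {K : Type} [Field K] [CharZero K]

/-- the matrices of the endomorphisms of the Tate module which come from the abelian variety -/
theorem toMatrix_endos {Q : Module.End K (K ⊗[ℚ] (Fin n → ℚ))} (hQ : Q ∈ endos K per) :
    LinearMap.toMatrix (Algebra.TensorProduct.basis K (Pi.basisFun ℚ (Fin n)))
      (Algebra.TensorProduct.basis K (Pi.basisFun ℚ (Fin n))) Q ∈
        Submodule.span K (img K (hodgeMat per : Set (Matrix (Fin n) (Fin n) ℚ))) := by
  unfold endos at hQ
  induction hQ using Submodule.span_induction with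
  | mem P h =>
    obtain ⟨P₀, hP₀, rfl⟩ := h
    rw [LinearMap.toMatrix_baseChange]
    refine Submodule.subset_span ⟨LinearMap.toMatrix (Pi.basisFun ℚ (Fin n))
      (Pi.basisFun ℚ (Fin n)) P₀, ?_, rfl⟩
    change IsHodgeEnd per (Matrix.toLin' _)
    rw [LinearMap.toMatrix_eq_toMatrix', Matrix.toLin'_toMatrix']
    exact hP₀
  | zero =>
    rw [map_zero]
    exact Submodule.zero_mem _
  | add a b _ _ ha hb =>
    rw [map_add]
    exact Submodule.add_mem _ ha hb
  | smul c a _ ha =>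
    rw [map_smul]
    exact Submodule.smul_mem _ _ ha

end hodge

end Pool.Agent.H850.LA
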