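import Pool.Agent.H850.LA.Rnd

/-!
# The Lie algebra of subgroups with abelian or finite quotients
-/

set_option autoImplicit false
set_option linter.unusedSectionVars false

open Matrix Filter Topology

namespace Pool.Agent.H850.LA

open Pool.Agent.H850.TF Pool.Agent.H850.RG Pool.Agent.H850.MT2

variable {p : ℕ} [Fact p.Prime] {n : ℕ} {Γ : Type} [Group Γ] (ρ : Γ →* GL (Fin n) ℤ_[p])

/-- powers -/
theorem tanH_pow {H M : Subgroup Γ} {k : ℕ} (hk : k ≠ 0) (hH : ∀ x ∈ H, x ^ k ∈ M) :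
    tanH ρ H ≤ tanH ρ M := by
  intro A hA
  rw [mem_tanH] at hA
  obtain ⟨σ, hσ, hl⟩ := hA
  have h1 : Tendsto (fun m => TF.rat ρ (σ m)) atTop (𝓝 1) := rho_tendsto (TF.rat ρ) hl
  have h2 : Tendsto (fun m => (∑ i ∈ Finset.range k, TF.rat ρ (σ m) ^ i) *
      (((p : ℚ_[p]) ^ m)⁻¹ • (TF.rat ρ (σ m) - 1))) atTop
      (𝓝 ((∑ i ∈ Finset.range k, (1 : Matrix (Fin n) (Fin n) ℚ_[p]) ^ i) * A)) := by
    refine Tendsto.mul (tendsto_finsetSum _ fun i _ => ?_) hl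
    exact h1.pow i
  have h3 : (∑ i ∈ Finset.range k, (1 : Matrix (Fin n) (Fin n) ℚ_[p]) ^ i) * A =
      (k : ℚ_[p]) • A := by
    simp only [one_pow, Finset.sum_const, Finset.card_range]
    rw [nsmul_eq_mul, mul_one, ← Matrix.diagonal_natCast, ← Matrix.smul_eq_diagonal_mul]
  rw [h3] at h2
  have h4 : (k : ℚ_[p]) • A ∈ tanH ρ M := by
    rw [mem_tanH]
    refine ⟨fun m => σ m ^ k, fun m => hH _ (hσ m), h2.congr fun m => ?_⟩
    rw [mul_smul_comm, geom_sum_mul, map_pow]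
  have hk0 : (k : ℚ_[p]) ≠ 0 := by exact_mod_cast hk
  have h5 := (tanH ρ M).smul_mem (k : ℚ_[p])⁻¹ h4
  rwa [smul_smul, inv_mul_cancel₀ hk0, one_smul] at h5

/-- **commutators** -/
theorem tanH_commutator {H M : Subgroup Γ}
    (hM : ∀ x ∈ H, ∀ y ∈ H, x * y * x⁻¹ * y⁻¹ ∈ M) {X Y : Matrix (Fin n) (Fin n) ℚ_[p]}
    (hX : X ∈ tanH ρ H) (hY : Y ∈ tanH ρ H) : X * Y - Y * X ∈ tanH ρ M := by
  refine bracket_mem ρ (tanH ρ M) (isClosed_tanH ρ M) hX fun g hg => ?_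
  rw [mem_tanH] at hY ⊢
  obtain ⟨σ, hσ, hl⟩ := hY
  refine ⟨fun m => g * σ m * g⁻¹ * (σ m)⁻¹, fun m => hM g hg _ (hσ m), ?_⟩
  have h1 : Tendsto (fun m => TF.rat ρ (σ m)) atTop (𝓝 1) := rho_tendsto (TF.rat ρ) hl
  have h2 : Tendsto (fun m => TF.rat ρ (σ m)⁻¹) atTop (𝓝 1) := rho_inv_tendsto (TF.rat ρ) h1
  have h3 := (((tendsto_const_nhds (x := TF.rat ρ g)).mul hl).mul
      (tendsto_const_nhds (x := TF.rat ρ g⁻¹))).sub hl
  have h4 := h3.mul h2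
  rw [mul_one] at h4
  refine h4.congr fun m => ?_
  have e1 : TF.rat ρ (σ m) * TF.rat ρ (σ m)⁻¹ = 1 := rat_mul_inv ρ (σ m)
  have e2 : TF.rat ρ g * TF.rat ρ g⁻¹ = 1 := rat_mul_inv ρ g
  rw [mul_smul_comm, smul_mul_assoc, ← smul_sub, smul_mul_assoc]
  congr 1
  have e3 : TF.rat ρ g * (TF.rat ρ (σ m) - 1) * TF.rat ρ g⁻¹ - (TF.rat ρ (σ m) - 1) =
      TF.rat ρ g * TF.rat ρ (σ m) * TF.rat ρ g⁻¹ - TF.rat ρ (σ m) := by
    rw [mul_sub, sub_mul, mul_one, e2]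
    abel
  rw [e3, sub_mul, e1, map_mul, map_mul, map_mul]

variable [TopologicalSpace Γ] [IsTopologicalGroup Γ] [CompactSpace Γ]

/-- open subgroups -/
theorem tanH_inf_open (H : Subgroup Γ) {V : Subgroup Γ} (hV : IsOpen (V : Set Γ)) :
    tanH ρ H ≤ tanH ρ (H ⊓ V) := by
  have hfin : Finite (Γ ⧸ V) := Subgroup.quotient_finite_of_isOpen _ hV
  have hidx : V.FiniteIndex := Subgroup.finiteIndex_of_finite_quotient
  have hidx' : V.normalCore.FiniteIndex := inferInstance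
  refine tanH_pow ρ hidx'.index_ne_zero fun x hx => ⟨H.pow_mem hx _, ?_⟩
  exact V.normalCore_le (Subgroup.pow_index_mem V.normalCore x)

end Pool.Agent.H850.LA
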